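import Pool.Agent.H59.FS.PC

/-!
# [H3 RA] `bd ∘ bd = 0` for precubical sets
-/

namespace Pool.Agent.H3.RA

open Pool.Agent.H59.FS
open scoped Classical

noncomputable section

variable {N : PreCub} {k : Type} [CommRing k]

theorem bd_sgl {n : ℕ} (c : N.cub (n + 1)) : N.bd k n (Finsupp.single c 1) =
    ∑ i : Fin (n + 1), (-1 : k) ^ (i : ℕ) •
      (Finsupp.single (N.fa n i true c) (1 : k) - Finsupp.single (N.fa n i false c) 1) := by
  unfold PreCub.bd
  rw [Finsupp.linearCombination_single, one_smul]

/-- the terms of the double boundary -/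
def dbt (k : Type) [CommRing k] {n : ℕ} (c : N.cub (n + 2)) (x : Fin (n + 2) × Fin (n + 1)) : N.cub n →₀ k :=
  ((-1 : k) ^ (x.1 : ℕ) * (-1 : k) ^ (x.2 : ℕ)) •
    (Finsupp.single (N.fa n x.2 true (N.fa (n + 1) x.1 true c)) (1 : k)
      - Finsupp.single (N.fa n x.2 false (N.fa (n + 1) x.1 true c)) 1
      - Finsupp.single (N.fa n x.2 true (N.fa (n + 1) x.1 false c)) 1
      + Finsupp.single (N.fa n x.2 false (N.fa (n + 1) x.1 false c)) 1)

theorem dbt_swap {n : ℕ} (c : N.cub (n + 2)) {i j : Fin (n + 1)} (h : i ≤ j) :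
    dbt k c (j.succ, i) + dbt k c (i.castSucc, j) = 0 := by
  unfold dbt
  simp only [N.fa_fa n i j _ _ c h, Fin.val_succ, Fin.val_castSucc, pow_succ]
  module

/-- the double boundary is zero -/
theorem bd_bd (n : ℕ) (y : N.cub (n + 2) →₀ k) : N.bd k n (N.bd k (n + 1) y) = 0 := by
  have key : N.bd k n ∘ₗ N.bd k (n + 1) = 0 := by
    refine Finsupp.lhom_ext' fun c => LinearMap.ext_ring ?_
    change N.bd k n (N.bd k (n + 1) (Finsupp.single c 1)) = 0
    rw [bd_sgl, map_sum]
    have h1 : ∀ j : Fin (n + 2), N.bd k n ((-1 : k) ^ (j : ℕ) •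
        (Finsupp.single (N.fa (n + 1) j true c) (1 : k) - Finsupp.single (N.fa (n + 1) j false c) 1)) =
        ∑ i : Fin (n + 1), dbt k c (j, i) := by
      intro j
      rw [map_smul, map_sub, bd_sgl, bd_sgl, ← Finset.sum_sub_distrib, Finset.smul_sum]
      refine Finset.sum_congr rfl fun i _ => ?_
      unfold dbt
      module
    rw [Finset.sum_congr rfl fun j _ => h1 j, ← Fintype.sum_prod_type']
    refine Finset.sum_involution (fun x _ => if h : x.2.castSucc < x.1 then
      (x.2.castSucc, x.1.pred (fun h0 => by rw [h0] at h; exact absurd h (not_lt.2 (Fin.zero_le _))))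
      else (x.2.succ, x.1.castLT (lt_of_le_of_lt (Fin.le_def.1 (not_lt.1 h)) (by
        rw [Fin.val_castSucc]; exact x.2.2)))) ?_ ?_ ?_ ?_
    · rintro ⟨j', i⟩ _
      dsimp only
      split_ifs with h
      · have h2 : j' ≠ 0 := fun h0 => by rw [h0] at h; exact absurd h (not_lt.2 (Fin.zero_le _))
        have h3 : (j'.pred h2).succ = j' := Fin.succ_pred _ _
        have h4 : i ≤ j'.pred h2 := by
          rw [Fin.le_def, Fin.val_pred]
          rw [Fin.lt_def, Fin.val_castSucc] at h
          omega
        have h5 := dbt_swap (k := k) c h4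
        rw [h3] at h5
        exact h5
      · have h2 : (j' : ℕ) < n + 1 := lt_of_le_of_lt (Fin.le_def.1 (not_lt.1 h)) (by
          rw [Fin.val_castSucc]; exact i.2)
        have h3 : (j'.castLT h2).castSucc = j' := Fin.castSucc_castLT _ _
        have h4 : j'.castLT h2 ≤ i := by
          rw [Fin.le_def, Fin.val_castLT]
          rw [not_lt, Fin.le_def, Fin.val_castSucc] at h
          exact h
        have h5 := dbt_swap (k := k) c h4
        rw [h3, add_comm] at h5
        exact h5
    · rintro ⟨j', i⟩ _ _
      dsimp only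
      split_ifs with h
      · intro h2
        have h3 := congrArg Prod.fst h2
        dsimp only at h3
        rw [h3] at h
        exact lt_irrefl _ h
      · intro h2
        have h3 := congrArg Prod.fst h2
        dsimp only at h3
        rw [← h3, not_lt, Fin.le_def, Fin.val_succ, Fin.val_castSucc] at h
        omega
    · intro x _
      exact Finset.mem_univ _
    · rintro ⟨j', i⟩ _
      dsimp only
      split_ifs with h h' h'
      · exfalso
        rw [Fin.lt_def, Fin.val_castSucc, Fin.val_castSucc, Fin.val_pred] at h'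
        rw [Fin.lt_def, Fin.val_castSucc] at h
        omega
      · refine Prod.ext (Fin.ext ?_) (Fin.ext ?_)
        · exact congrArg Fin.val (Fin.succ_pred j' (fun h0 => by rw [h0] at h; exact absurd h (not_lt.2 (Fin.zero_le _))))
        · rfl
      · refine Prod.ext (Fin.ext ?_) (Fin.ext ?_)
        · rfl
        · rw [Fin.val_pred, Fin.val_succ]
          rfl
      · exfalso
        rw [Fin.lt_def, Fin.val_castSucc, Fin.val_castLT, Fin.val_succ] at h'
        rw [Fin.lt_def, Fin.val_castSucc] at h
        omega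
  exact congrArg (fun f => f y) key

end

end Pool.Agent.H3.RA
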