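import Pool.Agent.H3.RA.Wd

/-!
# [H3 RA] cubes of the right-angled Artin group: top vertices

`Clq adj σ`: the finite set `σ` is a clique. A cube is a pair `(b, σ)`, `b` its bottom vertex, `σ` a clique, its vertices are
`b * pS τ`, `τ ⊆ σ`. `Up b v`: the edge from `b` to `b * gen v` increases the length. `tp b σ` is the longest vertex.
-/

namespace Pool.Agent.H3.RA

open scoped Classical

noncomputable section

variable {V : Type} {adj : V → V → Prop}

variable (adj) in
/-- cliques -/
def Clq (σ : Finset V) : Prop := ∀ v ∈ σ, ∀ w ∈ σ, v ≠ w → adj v w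

theorem Clq.mono {σ τ : Finset V} (h : Clq adj σ) (hτ : τ ⊆ σ) : Clq adj τ :=
  fun v hv w hw hvw => h v (hτ hv) w (hτ hw) hvw

theorem clq_empty : Clq adj ∅ := fun v hv => absurd hv (Finset.notMem_empty v)

theorem Clq.comm {σ : Finset V} (h : Clq adj σ) :
    (σ : Set V).Pairwise (Function.onFun Commute (gen adj)) :=
  fun v hv w hw hvw => gen_comm (h v hv w hw hvw)

/-- the product of the generators of a clique -/
def pS (adj : V → V → Prop) (σ : Finset V) : Raag adj :=
  if h : Clq adj σ then σ.noncommProd (gen adj) h.comm else 1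

theorem pS_empty : pS adj ∅ = 1 := by
  unfold pS
  rw [dif_pos clq_empty, Finset.noncommProd_empty]

theorem pS_insert {σ : Finset V} {v : V} (hv : v ∉ σ) (h : Clq adj (insert v σ)) :
    pS adj (insert v σ) = gen adj v * pS adj σ := by
  unfold pS
  rw [dif_pos h, dif_pos (h.mono (Finset.subset_insert v σ)), Finset.noncommProd_insert_of_notMem _ _ _ _ hv]

theorem pS_erase {σ : Finset V} {v : V} (hv : v ∈ σ) (h : Clq adj σ) :
    gen adj v * pS adj (σ.erase v) = pS adj σ := by
  rw [← pS_insert (Finset.notMem_erase v σ) (by rwa [Finset.insert_erase hv]), Finset.insert_erase hv]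

theorem pS_mem {σ : Finset V} {U : Set V} (h : ∀ v ∈ σ, v ∈ U) : pS adj σ ∈ subA adj U := by
  induction σ using Finset.induction_on with
  | empty => rw [pS_empty]; exact one_mem _
  | insert v σ hv ih =>
    by_cases hc : Clq adj (insert v σ)
    · rw [pS_insert hv hc]
      exact mul_mem (Subgroup.subset_closure ⟨v, h v (Finset.mem_insert_self v σ), rfl⟩)
        (ih fun w hw => h w (Finset.mem_insert_of_mem hw))
    · unfold pS
      rw [dif_neg hc]
      exact one_mem _

theorem pS_mem_lk {σ : Finset V} {v : V} (h : ∀ w ∈ σ, adj v w) : pS adj σ ∈ lkS adj v := pS_mem h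

/-- the edge from `b` to `b * gen v` increases the length -/
def Up (hg : IsG adj) (b : Raag adj) (v : V) : Prop := Dc hg b ⟨v, (b : Raag adj ⧸ lkS adj v)⟩ = 0

theorem up_mul (hg : IsG adj) {b y : Raag adj} {v : V} (hy : y ∈ lkS adj v) : Up hg (b * y) v ↔ Up hg b v := by
  unfold Up
  have h1 : ((b * y : Raag adj) : Raag adj ⧸ lkS adj v) = (b : Raag adj ⧸ lkS adj v) := by
    rw [eq_comm, QuotientGroup.eq, inv_mul_cancel_left]
    exact hy
  rw [h1, Dc_coset hg (v := v) (a := b) (b := b * y) (by rwa [inv_mul_cancel_left]) rfl]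

theorem up_gen (hg : IsG adj) {b : Raag adj} {v w : V} (h : adj v w) : Up hg (b * gen adj w) v ↔ Up hg b v :=
  up_mul hg (gen_mem_lkS h)

theorem up_gen_inv (hg : IsG adj) {b : Raag adj} {v w : V} (h : adj v w) :
    Up hg (b * (gen adj w)⁻¹) v ↔ Up hg b v :=
  up_mul hg (inv_mem (gen_mem_lkS h))

theorem up_one (hg : IsG adj) (v : V) : Up hg 1 v := by
  unfold Up
  rw [Dc_one]
  rfl

theorem len_of_up (hg : IsG adj) {b : Raag adj} {v : V} (h : Up hg b v) : len hg (b * gen adj v) = len hg b + 1 :=
  len_up hg (s := (v, true)) h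

theorem len_of_not_up (hg : IsG adj) {b : Raag adj} {v : V} (h : ¬ Up hg b v) :
    len hg b = len hg (b * gen adj v) + 1 :=
  len_down hg (s := (v, true)) h

/-- descents: `(v, true)` is a descent iff the edge from `a` to `a * gen v` decreases the length -/
theorem desc_true (hg : IsG adj) {a : Raag adj} {v : V} : Desc hg a (v, true) ↔ ¬ Up hg a v := Iff.rfl

/-- `(v, false)` is a descent iff the edge from `a * (gen v)⁻¹` to `a` increases the length -/
theorem desc_false (hg : IsG adj) {a : Raag adj} {v : V} : Desc hg a (v, false) ↔ Up hg (a * (gen adj v)⁻¹) v := by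
  have h1 : hyp a (v, false) = hyp (a * (gen adj v)⁻¹) (v, true) := rfl
  have h2 : a * (gen adj v)⁻¹ * ltr adj (v, true) = a := by
    change a * (gen adj v)⁻¹ * gen adj v = a
    rw [inv_mul_cancel_right]
  have h3 := edge_cases hg (a * (gen adj v)⁻¹) (v, true)
  rw [h2] at h3
  unfold Desc
  rw [h1]
  constructor
  · intro h4
    rcases h3 with h5 | h5
    · exact h5.1
    · exact absurd h5.2 h4
  · intro h4 h5
    have h6 : Dc hg (a * (gen adj v)⁻¹) (hyp (a * (gen adj v)⁻¹) (v, true)) = 0 := h4
    rcases h3 with h7 | h7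
    · rw [h5] at h7
      exact sg_ne _ h7.2.symm
    · rw [h6] at h7
      exact sg_ne (v, true) (by linarith [h7.1])

/-- the directions which increase the length -/
def ups (hg : IsG adj) (b : Raag adj) (σ : Finset V) : Finset V := σ.filter (Up hg b)

/-- the longest vertex -/
def tp (hg : IsG adj) (b : Raag adj) (σ : Finset V) : Raag adj := b * pS adj (ups hg b σ)

/-- the length of the longest vertex -/
def lam (hg : IsG adj) (b : Raag adj) (σ : Finset V) : ℕ := len hg b + (ups hg b σ).card

/-- the bottom of the face in direction `u` which contains the longest vertex -/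
def tf (hg : IsG adj) (b : Raag adj) (u : V) : Raag adj := if Up hg b u then b * gen adj u else b

/-- the bottom of the opposite face -/
def lf (hg : IsG adj) (b : Raag adj) (u : V) : Raag adj := if Up hg b u then b else b * gen adj u

theorem ups_erase_of_not {hg : IsG adj} {b : Raag adj} {σ : Finset V} {u : V} (h : ¬ Up hg b u) :
    ups hg b (σ.erase u) = ups hg b σ := by
  unfold ups
  ext w
  simp only [Finset.mem_filter, Finset.mem_erase]
  constructor
  · rintro ⟨⟨_, h2⟩, h3⟩
    exact ⟨h2, h3⟩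
  · rintro ⟨h2, h3⟩
    refine ⟨⟨?_, h2⟩, h3⟩
    rintro rfl
    exact h h3

theorem ups_gen {hg : IsG adj} {b : Raag adj} {σ : Finset V} {u : V} (hσ : Clq adj σ) (hu : u ∈ σ) :
    ups hg (b * gen adj u) (σ.erase u) = (ups hg b σ).erase u := by
  unfold ups
  ext w
  simp only [Finset.mem_filter, Finset.mem_erase]
  constructor
  · rintro ⟨⟨h1, h2⟩, h3⟩
    exact ⟨h1, h2, (up_gen hg (hσ w h2 u hu h1)).1 h3⟩
  · rintro ⟨h1, h2, h3⟩
    exact ⟨⟨h1, h2⟩, (up_gen hg (hσ w h2 u hu h1)).2 h3⟩

theorem ups_subset {hg : IsG adj} {b : Raag adj} {σ : Finset V} : ups hg b σ ⊆ σ := Finset.filter_subset _ _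

theorem mem_ups {hg : IsG adj} {b : Raag adj} {σ : Finset V} {v : V} : v ∈ ups hg b σ ↔ v ∈ σ ∧ Up hg b v :=
  Finset.mem_filter

/-- the top face has the same longest vertex -/
theorem tp_tf {hg : IsG adj} {b : Raag adj} {σ : Finset V} {u : V} (hσ : Clq adj σ) (hu : u ∈ σ) :
    tp hg (tf hg b u) (σ.erase u) = tp hg b σ := by
  unfold tp tf
  split_ifs with h
  · rw [ups_gen hσ hu, mul_assoc, pS_erase (mem_ups.2 ⟨hu, h⟩) (hσ.mono ups_subset)]
  · rw [ups_erase_of_not h]

theorem lam_tf {hg : IsG adj} {b : Raag adj} {σ : Finset V} {u : V} (hσ : Clq adj σ) (hu : u ∈ σ) :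
    lam hg (tf hg b u) (σ.erase u) = lam hg b σ := by
  unfold lam tf
  split_ifs with h
  · rw [ups_gen hσ hu, len_of_up hg h, Finset.card_erase_of_mem (mem_ups.2 ⟨hu, h⟩)]
    have : 0 < (ups hg b σ).card := Finset.card_pos.2 ⟨u, mem_ups.2 ⟨hu, h⟩⟩
    omega
  · rw [ups_erase_of_not h]

theorem lam_lf {hg : IsG adj} {b : Raag adj} {σ : Finset V} {u : V} (hσ : Clq adj σ) (hu : u ∈ σ) :
    lam hg (lf hg b u) (σ.erase u) + 1 = lam hg b σ := by
  unfold lam lf
  split_ifs with h
  · have h1 : ups hg b (σ.erase u) = (ups hg b σ).erase u := by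
      unfold ups
      rw [Finset.filter_erase]
    rw [h1, Finset.card_erase_of_mem (mem_ups.2 ⟨hu, h⟩)]
    have : 0 < (ups hg b σ).card := Finset.card_pos.2 ⟨u, mem_ups.2 ⟨hu, h⟩⟩
    omega
  · have h1 : u ∉ ups hg b σ := fun h2 => h (mem_ups.1 h2).2
    rw [ups_gen hσ hu, Finset.erase_eq_of_notMem h1, len_of_not_up hg h]
    omega

/-- the length of the longest vertex -/
theorem len_tp {hg : IsG adj} {b : Raag adj} {σ : Finset V} (hσ : Clq adj σ) : len hg (tp hg b σ) = lam hg b σ := by
  induction σ using Finset.induction_on generalizing b with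
  | empty =>
    unfold tp lam ups
    rw [Finset.filter_empty, pS_empty, mul_one, Finset.card_empty, add_zero]
  | insert u σ hu ih =>
    have h1 := tp_tf (hg := hg) (b := b) hσ (Finset.mem_insert_self u σ)
    have h2 := lam_tf (hg := hg) (b := b) hσ (Finset.mem_insert_self u σ)
    rw [Finset.erase_insert hu] at h1 h2
    rw [← h1, ← h2]
    exact ih (hσ.mono (Finset.subset_insert u σ))

theorem lam_eq_zero {hg : IsG adj} {b : Raag adj} {σ : Finset V} (h : lam hg b σ = 0) : b = 1 ∧ σ = ∅ := by
  unfold lam at h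
  have h1 : len hg b = 0 := by omega
  have h2 := (len_eq_zero hg).1 h1
  subst h2
  refine ⟨rfl, ?_⟩
  have h3 : (ups hg 1 σ).card = 0 := by omega
  rw [Finset.card_eq_zero] at h3
  rw [Finset.eq_empty_iff_forall_notMem]
  intro v hv
  have : v ∈ ups hg (1 : Raag adj) σ := mem_ups.2 ⟨hv, up_one hg v⟩
  rw [h3] at this
  exact Finset.notMem_empty v this

/-- at the longest vertex all directions of the cube are descents -/
theorem desc_tp {hg : IsG adj} {b : Raag adj} {σ : Finset V} (hσ : Clq adj σ) {w : V} (hw : w ∈ σ) :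
    Desc hg (tp hg b σ) (w, decide (¬ Up hg b w)) := by
  have hlk : pS adj ((ups hg b σ).erase w) ∈ lkS adj w :=
    pS_mem_lk fun x hx => hσ w hw x (ups_subset (Finset.mem_of_mem_erase hx)) (Finset.ne_of_mem_erase hx).symm
  by_cases h : Up hg b w
  · have h1 : decide (¬ Up hg b w) = false := by simp [h]
    rw [h1, desc_false]
    unfold tp
    rw [← pS_erase (mem_ups.2 ⟨hw, h⟩) (hσ.mono ups_subset), comm_lkS hlk, ← mul_assoc, mul_inv_cancel_right,
      up_mul hg hlk]
    exact h
  · have h1 : decide (¬ Up hg b w) = true := by simp [h]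
    rw [h1, desc_true]
    unfold tp
    have h2 : w ∉ ups hg b σ := fun h2 => h (mem_ups.1 h2).2
    rw [Finset.erase_eq_of_notMem h2] at hlk
    rwa [up_mul hg hlk]

/-- a descent `(v, e)` at the longest vertex, `v ∉ σ`: `insert v σ` is a clique -/
theorem clq_insert {hg : IsG adj} {b : Raag adj} {σ : Finset V} (hσ : Clq adj σ) {v : V} {e : Bool}
    (hd : Desc hg (tp hg b σ) (v, e)) (hv : v ∉ σ) : Clq adj (insert v σ) := by
  have h1 : ∀ w ∈ σ, adj v w := fun w hw =>
    desc_adj hg hd (desc_tp hσ hw) fun h2 => hv (by have h3 : v = w := congrArg Prod.fst h2; rw [h3]; exact hw)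
  intro x hx y hy hxy
  rw [Finset.mem_insert] at hx hy
  rcases hx with rfl | hx <;> rcases hy with rfl | hy
  · exact absurd rfl hxy
  · exact h1 y hy
  · exact hg.symm _ _ (h1 x hx)
  · exact hσ x hx y hy hxy

/-- the bottom of the cone -/
def cb (b : Raag adj) (v : V) (e : Bool) : Raag adj := if e then b else b * (gen adj v)⁻¹

/-- the direction of the new edge -/
theorem up_cb {hg : IsG adj} {b : Raag adj} {σ : Finset V} (hσ : Clq adj σ) {v : V} {e : Bool}
    (hd : Desc hg (tp hg b σ) (v, e)) (hv : v ∉ σ) : Up hg (cb b v e) v ↔ e = false := by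
  have hc := clq_insert hσ hd hv
  have hlk : pS adj (ups hg b σ) ∈ lkS adj v := pS_mem_lk fun x hx =>
    hc v (Finset.mem_insert_self v σ) x (Finset.mem_insert_of_mem (ups_subset hx)) (by
      rintro rfl
      exact hv (ups_subset hx))
  cases e
  · unfold cb
    simp only [Bool.false_eq_true, if_false, iff_true]
    rw [desc_false] at hd
    unfold tp at hd
    have h1 : b * pS adj (ups hg b σ) * (gen adj v)⁻¹ = b * (gen adj v)⁻¹ * pS adj (ups hg b σ) := by
      rw [mul_assoc, mul_assoc]
      congr 1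
      rw [mul_inv_eq_iff_eq_mul, mul_assoc, ← comm_lkS hlk, inv_mul_cancel_left]
    rw [h1, up_mul hg hlk] at hd
    exact hd
  · unfold cb
    simp only [if_true, Bool.true_eq_false, iff_false]
    rw [desc_true] at hd
    unfold tp at hd
    rwa [up_mul hg hlk] at hd

theorem tf_cb {hg : IsG adj} {b : Raag adj} {σ : Finset V} (hσ : Clq adj σ) {v : V} {e : Bool}
    (hd : Desc hg (tp hg b σ) (v, e)) (hv : v ∉ σ) : tf hg (cb b v e) v = b := by
  have h1 := up_cb hσ hd hv
  unfold tf
  cases e
  · rw [if_pos (h1.2 rfl)]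
    unfold cb
    simp
  · rw [if_neg (fun h2 => by simpa using h1.1 h2)]
    unfold cb
    simp

/-- adjacent directions: `Up` does not change -/
theorem up_cb_adj {hg : IsG adj} {b : Raag adj} {u v : V} {e : Bool} (h : adj u v) :
    Up hg (cb b v e) u ↔ Up hg b u := by
  unfold cb
  cases e
  · simpa using up_gen_inv hg h
  · simp

theorem tf_cb_adj {hg : IsG adj} {b : Raag adj} {u v : V} {e : Bool} (h : adj u v) :
    tf hg (cb b v e) u = cb (tf hg b u) v e := by
  have h0 := up_cb_adj (hg := hg) (b := b) (e := e) h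
  unfold tf
  split_ifs with h1 h2 h2
  · unfold cb
    cases e
    · simp only [Bool.false_eq_true, if_false]
      rw [mul_assoc, mul_assoc]
      congr 1
      rw [inv_mul_eq_iff_eq_mul, ← mul_assoc, ← gen_comm h, mul_inv_cancel_right]
    · rfl
  · exact absurd (h0.1 h1) h2
  · exact absurd (h0.2 h2) h1
  · rfl

/-- in a cube which already contains the direction `v` of the descent, the cone of the top face in the
direction `v` is the cube -/
theorem cb_tf {hg : IsG adj} {b : Raag adj} {σ : Finset V} (hσ : Clq adj σ) {v : V} {e : Bool}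
    (hd : Desc hg (tp hg b σ) (v, e)) (hv : v ∈ σ) : cb (tf hg b v) v e = b ∧ (Up hg b v ↔ e = false) := by
  have h1 : e = decide (¬ Up hg b v) := by
    by_contra h2
    have h3 := desc_adj hg hd (desc_tp hσ hv) (fun h4 => h2 (congrArg Prod.snd h4))
    exact hg.irr v h3
  by_cases h : Up hg b v
  · have h4 : e = false := by rw [h1]; simp [h]
    subst h4
    refine ⟨?_, by simp [h]⟩
    unfold tf cb
    simp [h]
  · have h4 : e = true := by rw [h1]; simp [h]
    subst h4
    refine ⟨?_, by simp [h]⟩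
    unfold tf cb
    simp [h]

end

end Pool.Agent.H3.RA
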