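import Pool.Agent.H3.RA.Cb

/-!
# [H3 RA] the cube complex of the right-angled Artin group: chains

`Cq adj k`: the `k`-cubes, `CC R adj k` the free module, `cell b σ` the basis element of a cube (`0` if `(b, σ)` is not a `k`-cube),
`sgn v σ = (-1)^#{w ∈ σ | rk w < rk v}`, boundary
`dA (cell b σ) = ∑ v ∈ σ, sgn v σ • (cell b (σ - v) - cell (b v) (σ - v))`.
-/

namespace Pool.Agent.H3.RA

open scoped Classical

noncomputable section

variable {V : Type} {adj : V → V → Prop}

/-- the sign -/
def sgn (rk : V → ℕ) (v : V) (σ : Finset V) : ℤ := (-1) ^ (σ.filter fun w => rk w < rk v).card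

variable (adj) in
/-- adjacent vertices have different ranks -/
def IsR (rk : V → ℕ) : Prop := ∀ v w, adj v w → rk v ≠ rk w

theorem sgn_sq (rk : V → ℕ) (v : V) (σ : Finset V) : sgn rk v σ * sgn rk v σ = 1 := by
  unfold sgn
  rw [← mul_pow]
  norm_num

theorem sgn_erase (rk : V → ℕ) {u v : V} {σ : Finset V} (hu : u ∈ σ) :
    sgn rk v (σ.erase u) = (if rk u < rk v then -1 else 1) * sgn rk v σ := by
  unfold sgn
  split_ifs with h
  · have h1 : (σ.filter fun w => rk w < rk v) = insert u ((σ.erase u).filter fun w => rk w < rk v) := by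
      ext w
      simp only [Finset.mem_filter, Finset.mem_insert, Finset.mem_erase]
      by_cases hw : w = u
      · subst hw
        simp [hu, h]
      · simp [hw]
    have h2 : u ∉ (σ.erase u).filter fun w => rk w < rk v := by simp
    rw [h1, Finset.card_insert_of_notMem h2, pow_succ]
    ring
  · have h1 : ((σ.erase u).filter fun w => rk w < rk v) = (σ.filter fun w => rk w < rk v) := by
      ext w
      simp only [Finset.mem_filter, Finset.mem_erase]
      constructor
      · rintro ⟨⟨_, h2⟩, h3⟩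
        exact ⟨h2, h3⟩
      · rintro ⟨h2, h3⟩
        refine ⟨⟨?_, h2⟩, h3⟩
        rintro rfl
        exact h h3
    rw [h1, one_mul]

theorem sgn_self (rk : V → ℕ) {v : V} {σ : Finset V} : sgn rk v (σ.erase v) = sgn rk v σ := by
  by_cases hv : v ∈ σ
  · rw [sgn_erase rk hv, if_neg (lt_irrefl _), one_mul]
  · rw [Finset.erase_eq_of_notMem hv]

/-- the sign rule -/
theorem sgn_anti (rk : V → ℕ) {u v : V} {σ : Finset V} (hu : u ∈ σ) (hv : v ∈ σ) (h : rk u ≠ rk v) :
    sgn rk u σ * sgn rk v (σ.erase u) = -(sgn rk v σ * sgn rk u (σ.erase v)) := by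
  rw [sgn_erase rk hu, sgn_erase rk hv]
  rcases lt_or_gt_of_ne h with h1 | h1
  · rw [if_pos h1, if_neg (by omega)]
    ring
  · rw [if_neg (by omega), if_pos h1]
    ring

variable (adj) in
/-- the condition for a `k`-cube -/
def IsC (k : ℕ) (q : Raag adj × Finset V) : Prop := Clq adj q.2 ∧ q.2.card = k

variable (adj) in
/-- the `k`-cubes -/
abbrev Cq (k : ℕ) : Type := {q : Raag adj × Finset V // IsC adj k q}

/-- the cubical chains -/
abbrev CC (R : Type) [CommRing R] (adj : V → V → Prop) (k : ℕ) : Type := Cq adj k →₀ R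

variable {R : Type} [CommRing R]

variable (R) in
/-- the basis element of a cube -/
def cell (k : ℕ) (b : Raag adj) (σ : Finset V) : CC R adj k :=
  if h : IsC adj k (b, σ) then Finsupp.single ⟨(b, σ), h⟩ 1 else 0

theorem cell_coe {k : ℕ} (q : Cq adj k) : cell R k q.1.1 q.1.2 = Finsupp.single q 1 := by
  unfold cell
  rw [dif_pos q.2]

theorem cc_ext {k : ℕ} {M : Type} [AddCommGroup M] [Module R M] {f g : CC R adj k →ₗ[R] M}
    (h : ∀ b σ, IsC adj k (b, σ) → f (cell R k b σ) = g (cell R k b σ)) : f = g := by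
  refine Finsupp.lhom_ext' fun q => LinearMap.ext_ring ?_
  have h1 := h q.1.1 q.1.2 q.2
  rw [cell_coe] at h1
  exact h1

/-- linear maps on the chains -/
def lc (k : ℕ) {M : Type} [AddCommGroup M] [Module R M] (v : Raag adj → Finset V → M) : CC R adj k →ₗ[R] M :=
  Finsupp.linearCombination R fun q => v q.1.1 q.1.2

theorem lc_cell {k : ℕ} {M : Type} [AddCommGroup M] [Module R M] {v : Raag adj → Finset V → M}
    {b : Raag adj} {σ : Finset V} (h : IsC adj k (b, σ)) : lc (R := R) k v (cell R k b σ) = v b σ := by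
  unfold lc cell
  rw [dif_pos h, Finsupp.linearCombination_single, one_smul]

variable (R) in
/-- the boundary -/
def dA (adj : V → V → Prop) (rk : V → ℕ) (k : ℕ) : CC R adj (k + 1) →ₗ[R] CC R adj k :=
  lc (k + 1) fun b σ => ∑ v ∈ σ, sgn rk v σ • (cell R k b (σ.erase v) - cell R k (b * gen adj v) (σ.erase v))

theorem dA_cell {rk : V → ℕ} {k : ℕ} {b : Raag adj} {σ : Finset V} (h : IsC adj (k + 1) (b, σ)) :
    dA R adj rk k (cell R (k + 1) b σ) =
      ∑ v ∈ σ, sgn rk v σ • (cell R k b (σ.erase v) - cell R k (b * gen adj v) (σ.erase v)) :=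
  lc_cell h

theorem IsC.erase {k : ℕ} {b b' : Raag adj} {σ : Finset V} (h : IsC adj (k + 1) (b, σ)) {v : V} (hv : v ∈ σ) :
    IsC adj k (b', σ.erase v) := by
  refine ⟨h.1.mono (Finset.erase_subset _ _), ?_⟩
  have := h.2
  simp only at this ⊢
  rw [Finset.card_erase_of_mem hv, this]
  rfl

/-- antisymmetric double sums are zero -/
theorem sum_anti {M : Type} [AddCommGroup M] (σ : Finset V) (f : V → V → M)
    (h : ∀ u ∈ σ, ∀ v ∈ σ, u ≠ v → f u v = - f v u) : ∑ u ∈ σ, ∑ v ∈ σ.erase u, f u v = 0 := by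
  induction σ using Finset.induction_on with
  | empty => rfl
  | insert a σ ha ih =>
    rw [Finset.sum_insert ha, Finset.erase_insert ha]
    have h1 : ∀ u ∈ σ, ∑ v ∈ (insert a σ).erase u, f u v = f u a + ∑ v ∈ σ.erase u, f u v := by
      intro u hu
      have hua : u ≠ a := by
        rintro rfl
        exact ha hu
      rw [Finset.erase_insert_of_ne (Ne.symm hua), Finset.sum_insert]
      intro h2
      exact ha (Finset.mem_of_mem_erase h2)
    rw [Finset.sum_congr rfl h1, Finset.sum_add_distrib,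
      ih fun u hu v hv => h u (Finset.mem_insert_of_mem hu) v (Finset.mem_insert_of_mem hv), add_zero,
      ← Finset.sum_add_distrib]
    refine Finset.sum_eq_zero fun v hv => ?_
    rw [h a (Finset.mem_insert_self a σ) v (Finset.mem_insert_of_mem hv) (by
      rintro rfl
      exact ha hv), neg_add_cancel]

theorem dA_dA {rk : V → ℕ} (hrk : IsR adj rk) (k : ℕ) (x : CC R adj (k + 2)) :
    dA R adj rk k (dA R adj rk (k + 1) x) = 0 := by
  have key : dA R adj rk k ∘ₗ dA R adj rk (k + 1) = 0 := by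
    refine cc_ext fun b σ h => ?_
    rw [LinearMap.comp_apply, dA_cell h, map_sum, LinearMap.zero_apply]
    have h1 : ∀ u ∈ σ, dA R adj rk k (sgn rk u σ • (cell R (k + 1) b (σ.erase u) -
        cell R (k + 1) (b * gen adj u) (σ.erase u))) =
        ∑ v ∈ σ.erase u, (sgn rk u σ * sgn rk v (σ.erase u)) • (cell R k b ((σ.erase u).erase v) -
          cell R k (b * gen adj v) ((σ.erase u).erase v) - cell R k (b * gen adj u) ((σ.erase u).erase v) +
          cell R k (b * gen adj u * gen adj v) ((σ.erase u).erase v)) := by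
      intro u hu
      rw [map_zsmul, map_sub, dA_cell (h.erase hu), dA_cell (h.erase hu), ← Finset.sum_sub_distrib, Finset.smul_sum]
      refine Finset.sum_congr rfl fun v hv => ?_
      module
    rw [Finset.sum_congr rfl h1]
    refine sum_anti σ _ fun u hu v hv huv => ?_
    have h2 : adj u v := h.1 u hu v hv huv
    rw [sgn_anti rk hu hv (hrk u v h2), neg_smul, Finset.erase_right_comm, mul_assoc b, gen_comm h2, ← mul_assoc b]
    congr 2
    abel
  exact congrArg (fun f => f x) key

variable (R) in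
/-- the augmentation -/
def eA (adj : V → V → Prop) : CC R adj 0 →ₗ[R] R := lc 0 fun _ _ => 1

theorem eA_cell {b : Raag adj} {σ : Finset V} (h : IsC adj 0 (b, σ)) : eA R adj (cell R 0 b σ) = 1 := lc_cell h

theorem eA_dA {rk : V → ℕ} (x : CC R adj 1) : eA R adj (dA R adj rk 0 x) = 0 := by
  have key : eA R adj ∘ₗ dA R adj rk 0 = 0 := by
    refine cc_ext fun b σ h => ?_
    rw [LinearMap.comp_apply, dA_cell h, map_sum, LinearMap.zero_apply]
    refine Finset.sum_eq_zero fun v hv => ?_
    rw [map_zsmul, map_sub, eA_cell (h.erase hv), eA_cell (h.erase hv), sub_self, smul_zero]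
  exact congrArg (fun f => f x) key

/-! ## the filtration by the length of the longest vertex -/

variable (R) in
/-- the span of the cubes with `lam < n` -/
def Lw (hg : IsG adj) (k n : ℕ) : Submodule R (CC R adj k) :=
  Submodule.span R {x | ∃ b σ, IsC adj k (b, σ) ∧ lam hg b σ < n ∧ x = cell R k b σ}

theorem cell_mem {hg : IsG adj} {k n : ℕ} {b : Raag adj} {σ : Finset V} (h : IsC adj k (b, σ)) (hn : lam hg b σ < n) :
    cell R k b σ ∈ Lw R hg k n := Submodule.subset_span ⟨b, σ, h, hn, rfl⟩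

theorem Lw_mono {hg : IsG adj} {k n m : ℕ} (h : n ≤ m) : Lw R hg k n ≤ Lw R hg k m := by
  refine Submodule.span_mono ?_
  rintro x ⟨b, σ, h1, h2, h3⟩
  exact ⟨b, σ, h1, by omega, h3⟩

/-- every chain is in some `Lw` -/
theorem exists_Lw (hg : IsG adj) {k : ℕ} (x : CC R adj k) : ∃ n, x ∈ Lw R hg k n := by
  induction x using Finsupp.induction_linear with
  | zero => exact ⟨0, zero_mem _⟩
  | add f g hf hg' =>
    obtain ⟨n, hn⟩ := hf
    obtain ⟨m, hm⟩ := hg'
    exact ⟨max n m, add_mem (Lw_mono (le_max_left _ _) hn) (Lw_mono (le_max_right _ _) hm)⟩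
  | single q a =>
    refine ⟨lam hg q.1.1 q.1.2 + 1, ?_⟩
    have h1 : Finsupp.single q a = a • cell R k q.1.1 q.1.2 := by
      rw [cell_coe, Finsupp.smul_single_one]
    rw [h1]
    exact Submodule.smul_mem _ _ (cell_mem q.2 (Nat.lt_succ_self _))

/-- in positive degrees `Lw 1 = 0` -/
theorem Lw_one (hg : IsG adj) {k : ℕ} {x : CC R adj (k + 1)} (hx : x ∈ Lw R hg (k + 1) 1) : x = 0 := by
  unfold Lw at hx
  rw [Submodule.mem_span_set'] at hx
  obtain ⟨n, f, g, rfl⟩ := hx
  refine Finset.sum_eq_zero fun i _ => ?_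
  obtain ⟨b, σ, h1, h2, h3⟩ := (g i).2
  have h4 := lam_eq_zero (hg := hg) (b := b) (σ := σ) (by omega)
  have h5 := h1.2
  simp only at h5
  rw [h4.2] at h5
  simp at h5

/-- in degree `0`, `Lw 1` is spanned by the vertex `1` -/
theorem Lw_one_zero (hg : IsG adj) {x : CC R adj 0} (hx : x ∈ Lw R hg 0 1) : ∃ r : R, x = r • cell R 0 1 ∅ := by
  unfold Lw at hx
  induction hx using Submodule.span_induction with
  | mem x hx =>
    obtain ⟨b, σ, h1, h2, rfl⟩ := hx
    have h4 := lam_eq_zero (hg := hg) (b := b) (σ := σ) (by omega)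
    rw [h4.1, h4.2]
    exact ⟨1, (one_smul _ _).symm⟩
  | zero => exact ⟨0, (zero_smul _ _).symm⟩
  | add x y _ _ hx hy =>
    obtain ⟨r, rfl⟩ := hx
    obtain ⟨s, rfl⟩ := hy
    exact ⟨r + s, (add_smul _ _ _).symm⟩
  | smul a x _ hx =>
    obtain ⟨r, rfl⟩ := hx
    exact ⟨a * r, smul_smul _ _ _⟩

end

end Pool.Agent.H3.RA
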