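import Mathlib

/-!
# [H3 RA] MP_5c3080_gt, chapter (B): right-angled Artin groups of arbitrary graphs, definitions

`Raag adj` is the right-angled Artin group of the graph `(V, adj)`, `gen v` its generators. Letters are `s : V × Bool`,
`ltr s = (gen s.1)^±1`. `lkS v` is the subgroup generated by the `gen w`, `w` adjacent to `v`, `Hyp` the set of the hyperplanes
(cosets `g lkS v` for all `v`), `Dc a : Hyp →₀ ℤ` the 1-cocycle with `Dc (gen v) = single ⟨v, 1⟩ 1`.
`len a` is the number of the hyperplanes `h` with `Dc a h ≠ 0`.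
-/

namespace Pool.Agent.H3.RA

noncomputable section

variable {V : Type} (adj : V → V → Prop)

/-- the relations: adjacent generators commute -/
def rels : Set (FreeGroup V) := {r | ∃ v w, adj v w ∧ r = FreeGroup.of v * FreeGroup.of w * (FreeGroup.of v)⁻¹ * (FreeGroup.of w)⁻¹}

/-- the right-angled Artin group -/
abbrev Raag : Type := PresentedGroup (rels adj)

/-- the generators -/
def gen (v : V) : Raag adj := PresentedGroup.of v

/-- the letters `(v, true) ↦ gen v`, `(v, false) ↦ (gen v)⁻¹` -/
def ltr (s : V × Bool) : Raag adj := if s.2 then gen adj s.1 else (gen adj s.1)⁻¹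

/-- the product of a word -/
def pr (L : List (V × Bool)) : Raag adj := (L.map (ltr adj)).prod

/-- the inverse letter -/
def ivl (s : V × Bool) : V × Bool := (s.1, !s.2)

/-- the subgroup generated by the `gen w`, `w ∈ U` -/
def subA (U : Set V) : Subgroup (Raag adj) := Subgroup.closure (gen adj '' U)

/-- the link subgroup of `v` -/
def lkS (v : V) : Subgroup (Raag adj) := subA adj {w | adj v w}

/-- the hyperplanes -/
abbrev Hyp : Type := Σ v : V, Raag adj ⧸ lkS adj v

/-- the action on the hyperplanes -/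
def hact (a : Raag adj) (h : Hyp adj) : Hyp adj := ⟨h.1, a • h.2⟩

/-- `Ab adj`: finitely supported functions on the hyperplanes -/
abbrev Ab : Type := Hyp adj →₀ ℤ

/-- the action on functions -/
def ract (a : Raag adj) : Ab adj →+ Ab adj := Finsupp.mapDomain.addMonoidHom (hact adj a)

variable {adj}

theorem hact_one (h : Hyp adj) : hact adj 1 h = h := by
  obtain ⟨v, h⟩ := h
  simp [hact]

theorem hact_mul (a b : Raag adj) (h : Hyp adj) : hact adj (a * b) h = hact adj a (hact adj b h) := by
  obtain ⟨v, h⟩ := h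
  unfold hact
  congr 1
  exact mul_smul a b h

theorem ract_single (a : Raag adj) (h : Hyp adj) (n : ℤ) :
    ract adj a (Finsupp.single h n) = Finsupp.single (hact adj a h) n :=
  Finsupp.mapDomain_single

theorem ract_one (x : Ab adj) : ract adj 1 x = x := by
  induction x using Finsupp.induction_linear with
  | zero => exact map_zero _
  | add f g hf hg => rw [map_add, hf, hg]
  | single h n => rw [ract_single, hact_one]

theorem ract_mul (a b : Raag adj) (x : Ab adj) : ract adj (a * b) x = ract adj a (ract adj b x) := by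
  induction x using Finsupp.induction_linear with
  | zero => rw [map_zero, map_zero, map_zero]
  | add f g hf hg => rw [map_add, hf, hg, map_add, map_add]
  | single h n => rw [ract_single, ract_single, ract_single, hact_mul]

theorem hact_inj (a : Raag adj) : Function.Injective (hact adj a) := fun h h' hh => by
  have h1 := congrArg (hact adj a⁻¹) hh
  rwa [← hact_mul, ← hact_mul, inv_mul_cancel, hact_one, hact_one] at h1

theorem ract_apply (a : Raag adj) (x : Ab adj) (h : Hyp adj) : ract adj a x h = x (hact adj a⁻¹ h) := by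
  have h1 : h = hact adj a (hact adj a⁻¹ h) := by
    rw [← hact_mul, mul_inv_cancel, hact_one]
  conv_lhs => rw [h1]
  exact Finsupp.mapDomain_apply (hact_inj a) x _

theorem gen_comm {v w : V} (h : adj v w) : gen adj v * gen adj w = gen adj w * gen adj v := by
  have h1 : (QuotientGroup.mk (FreeGroup.of v * FreeGroup.of w * (FreeGroup.of v)⁻¹ * (FreeGroup.of w)⁻¹ :
      FreeGroup V) : Raag adj) = 1 :=
    (QuotientGroup.eq_one_iff _).2 (Subgroup.subset_normalClosure ⟨v, w, h, rfl⟩)
  have h2 : gen adj v * gen adj w * (gen adj v)⁻¹ * (gen adj w)⁻¹ = 1 := h1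
  rw [mul_inv_eq_one, mul_inv_eq_iff_eq_mul] at h2
  exact h2

theorem closure_gen : Subgroup.closure (Set.range (gen adj)) = ⊤ :=
  PresentedGroup.closure_range_of (rels adj)

/-- homomorphisms from `Raag adj` -/
def lift {G : Type} [Group G] (f : V → G) (h : ∀ v w, adj v w → f v * f w = f w * f v) : Raag adj →* G :=
  PresentedGroup.toGroup (f := f) (by
    rintro r ⟨v, w, hvw, rfl⟩
    rw [map_mul, map_mul, map_mul, map_inv, map_inv, FreeGroup.lift_apply_of, FreeGroup.lift_apply_of,
      mul_inv_eq_one, mul_inv_eq_iff_eq_mul]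
    exact h v w hvw)

theorem lift_gen {G : Type} [Group G] (f : V → G) (h : ∀ v w, adj v w → f v * f w = f w * f v) (v : V) :
    lift (adj := adj) f h (gen adj v) = f v :=
  PresentedGroup.toGroup.of _

theorem hom_ext {G : Type} [Group G] {f g : Raag adj →* G} (h : ∀ v, f (gen adj v) = g (gen adj v)) :
    f = g := PresentedGroup.ext h

/-- induction on the right by letters -/
theorem ind_right {p : Raag adj → Prop} (h1 : p 1) (h2 : ∀ a s, p a → p (a * ltr adj s)) (a : Raag adj) :
    p a := by
  have ha : a ∈ Subgroup.closure (Set.range (gen adj)) := by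
    rw [closure_gen]
    exact Subgroup.mem_top a
  refine Subgroup.closure_induction_right (p := fun x _ => p x) h1 ?_ ?_ ha
  · rintro x _ _ ⟨v, rfl⟩ hx
    simpa [ltr] using h2 x (v, true) hx
  · rintro x _ _ ⟨v, rfl⟩ hx
    simpa [ltr] using h2 x (v, false) hx

/-- induction on the left by letters -/
theorem ind_left {p : Raag adj → Prop} (h1 : p 1) (h2 : ∀ a s, p a → p (ltr adj s * a)) (a : Raag adj) :
    p a := by
  have ha : a ∈ Subgroup.closure (Set.range (gen adj)) := by
    rw [closure_gen]
    exact Subgroup.mem_top a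
  refine Subgroup.closure_induction_left (p := fun x _ => p x) h1 ?_ ?_ ha
  · rintro _ ⟨v, rfl⟩ x _ hx
    simpa [ltr] using h2 x (v, true) hx
  · rintro _ ⟨v, rfl⟩ x _ hx
    simpa [ltr] using h2 x (v, false) hx

/-! ## the cocycle -/

variable (adj) in
/-- the affine bijection `x ↦ single ⟨v, 1⟩ 1 + gen v • x` -/
def aff (v : V) : Equiv.Perm (Ab adj) where
  toFun x := Finsupp.single ⟨v, ((1 : Raag adj) : Raag adj ⧸ lkS adj v)⟩ 1 + ract adj (gen adj v) x
  invFun x := ract adj (gen adj v)⁻¹ (x - Finsupp.single ⟨v, ((1 : Raag adj) : Raag adj ⧸ lkS adj v)⟩ 1)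
  left_inv x := by
    dsimp only
    rw [add_sub_cancel_left, ← ract_mul, inv_mul_cancel, ract_one]
  right_inv x := by
    dsimp only
    rw [← ract_mul, mul_inv_cancel, ract_one, add_sub_cancel]

theorem gen_mem_lkS {v w : V} (h : adj v w) : gen adj w ∈ lkS adj v :=
  Subgroup.subset_closure ⟨w, h, rfl⟩

theorem aff_comm (hs : ∀ v w, adj v w → adj w v) (v w : V) (h : adj v w) :
    aff adj v * aff adj w = aff adj w * aff adj v := by
  ext1 x
  have h1 : hact adj (gen adj v) ⟨w, ((1 : Raag adj) : Raag adj ⧸ lkS adj w)⟩ = ⟨w, ((1 : Raag adj) : Raag adj ⧸ lkS adj w)⟩ := by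
    unfold hact
    congr 1
    rw [MulAction.Quotient.smul_coe, smul_eq_mul, mul_one, QuotientGroup.eq, mul_one]
    exact inv_mem (gen_mem_lkS (hs v w h))
  have h2 : hact adj (gen adj w) ⟨v, ((1 : Raag adj) : Raag adj ⧸ lkS adj v)⟩ = ⟨v, ((1 : Raag adj) : Raag adj ⧸ lkS adj v)⟩ := by
    unfold hact
    congr 1
    rw [MulAction.Quotient.smul_coe, smul_eq_mul, mul_one, QuotientGroup.eq, mul_one]
    exact inv_mem (gen_mem_lkS h)
  simp only [Equiv.Perm.mul_apply, aff, Equiv.coe_fn_mk, map_add, ract_single, h1, h2, ← ract_mul,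
    gen_comm h]
  abel

variable (adj) in
/-- the adjacency relation is symmetric and irreflexive -/
structure IsG : Prop where
  symm : ∀ v w, adj v w → adj w v
  irr : ∀ v, ¬ adj v v

/-- the affine action of the group -/
def affH (hg : IsG adj) : Raag adj →* Equiv.Perm (Ab adj) :=
  lift (aff adj) (aff_comm hg.symm)

/-- the cocycle -/
def Dc (hg : IsG adj) (a : Raag adj) : Ab adj := affH hg a 0

theorem affH_apply (hg : IsG adj) (a : Raag adj) (x : Ab adj) :
    affH hg a x = Dc hg a + ract adj a x := by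
  have key : ∀ v, ∀ x, affH hg (gen adj v) x =
      Finsupp.single ⟨v, ((1 : Raag adj) : Raag adj ⧸ lkS adj v)⟩ 1 + ract adj (gen adj v) x := by
    intro v x
    unfold affH
    rw [lift_gen]
    rfl
  have key' : ∀ v, ∀ x, affH hg (gen adj v)⁻¹ x =
      ract adj (gen adj v)⁻¹ (x - Finsupp.single ⟨v, ((1 : Raag adj) : Raag adj ⧸ lkS adj v)⟩ 1) := by
    intro v x
    unfold affH
    rw [map_inv, lift_gen]
    rfl
  induction a using ind_left generalizing x with
  | h1 =>
    unfold Dc
    rw [map_one, Equiv.Perm.one_apply, Equiv.Perm.one_apply, ract_one, zero_add]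
  | h2 a s ih =>
    unfold Dc
    rw [map_mul, Equiv.Perm.mul_apply, Equiv.Perm.mul_apply, ih x, ih 0, map_zero, add_zero]
    unfold ltr
    split_ifs
    · rw [key, key, map_add, ract_mul, add_assoc]
    · rw [key', key', ract_mul, ← map_add]
      congr 1
      abel

theorem Dc_one (hg : IsG adj) : Dc hg 1 = 0 := by
  unfold Dc
  rw [map_one, Equiv.Perm.one_apply]

theorem Dc_mul (hg : IsG adj) (a b : Raag adj) : Dc hg (a * b) = Dc hg a + ract adj a (Dc hg b) := by
  conv_lhs => unfold Dc
  rw [map_mul, Equiv.Perm.mul_apply, affH_apply, affH_apply, map_zero, add_zero]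

theorem Dc_gen (hg : IsG adj) (v : V) :
    Dc hg (gen adj v) = Finsupp.single ⟨v, ((1 : Raag adj) : Raag adj ⧸ lkS adj v)⟩ 1 := by
  unfold Dc affH
  rw [lift_gen]
  change _ + ract adj _ 0 = _
  rw [map_zero, add_zero]

theorem Dc_inv (hg : IsG adj) (a : Raag adj) : Dc hg a⁻¹ = - ract adj a⁻¹ (Dc hg a) := by
  have h1 := Dc_mul hg a⁻¹ a
  rw [inv_mul_cancel, Dc_one] at h1
  exact eq_neg_of_add_eq_zero_left h1.symm

/-- the base point of the edge `a — a s` -/
def bas (a : Raag adj) (s : V × Bool) : Raag adj := if s.2 then a else a * (gen adj s.1)⁻¹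

/-- the hyperplane of the edge `a — a s` -/
def hyp (a : Raag adj) (s : V × Bool) : Hyp adj := ⟨s.1, (bas a s : Raag adj ⧸ lkS adj s.1)⟩

/-- the sign of a letter -/
def sg (s : V × Bool) : ℤ := if s.2 then 1 else -1

theorem Dc_ltr (hg : IsG adj) (a : Raag adj) (s : V × Bool) :
    Dc hg (a * ltr adj s) = Dc hg a + Finsupp.single (hyp a s) (sg s) := by
  unfold ltr hyp sg bas
  split_ifs
  · rw [Dc_mul, Dc_gen, ract_single]
    congr 2
    unfold hact
    congr 1
    rw [MulAction.Quotient.smul_coe, smul_eq_mul, mul_one]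
  · rw [Dc_mul, Dc_inv, Dc_gen, ract_single, map_neg, ract_single, ← Finsupp.single_neg]
    congr 2

/-- the length -/
def len (hg : IsG adj) (a : Raag adj) : ℕ := (Dc hg a).support.card

end

end Pool.Agent.H3.RA
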