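import Pool.Agent.H3.RA.Ch

/-!
# [H3 RA] the cube complex of the right-angled Artin group is a resolution
-/

namespace Pool.Agent.H3.RA

open scoped Classical

noncomputable section

variable {V : Type} {adj : V → V → Prop} {R : Type} [CommRing R]

/-- the sign of the direction `u` at the longest vertex -/
def ez (hg : IsG adj) (b : Raag adj) (u : V) : ℤ := if Up hg b u then -1 else 1

theorem ez_sq (hg : IsG adj) (b : Raag adj) (u : V) : ez hg b u * ez hg b u = 1 := by
  unfold ez
  split_ifs <;> norm_num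

theorem dA_cell' (hg : IsG adj) {rk : V → ℕ} {k : ℕ} {b : Raag adj} {σ : Finset V} (h : IsC adj (k + 1) (b, σ)) :
    dA R adj rk k (cell R (k + 1) b σ) =
      ∑ u ∈ σ, (sgn rk u σ * ez hg b u) • (cell R k (tf hg b u) (σ.erase u) - cell R k (lf hg b u) (σ.erase u)) := by
  rw [dA_cell h]
  refine Finset.sum_congr rfl fun u _ => ?_
  unfold ez tf lf
  split_ifs with h1
  · module
  · rw [mul_one]

variable (R) in
/-- the part of the boundary with the same longest vertex -/
def dT (hg : IsG adj) (rk : V → ℕ) (k : ℕ) (b : Raag adj) (σ : Finset V) : CC R adj k :=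
  ∑ u ∈ σ, (sgn rk u σ * ez hg b u) • cell R k (tf hg b u) (σ.erase u)

theorem dA_mod (hg : IsG adj) {rk : V → ℕ} {k n : ℕ} {b : Raag adj} {σ : Finset V} (h : IsC adj (k + 1) (b, σ))
    (hn : lam hg b σ ≤ n) : dA R adj rk k (cell R (k + 1) b σ) - dT R hg rk k b σ ∈ Lw R hg k n := by
  rw [dA_cell' hg h]
  unfold dT
  rw [← Finset.sum_sub_distrib]
  refine Submodule.sum_mem _ fun u hu => ?_
  have h1 : (sgn rk u σ * ez hg b u) • (cell R k (tf hg b u) (σ.erase u) - cell R k (lf hg b u) (σ.erase u)) -
      (sgn rk u σ * ez hg b u) • cell R k (tf hg b u) (σ.erase u) =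
      -((sgn rk u σ * ez hg b u) • cell R k (lf hg b u) (σ.erase u)) := by
    module
  rw [h1]
  refine neg_mem (zsmul_mem (cell_mem (h.erase hu) ?_) _)
  have := lam_lf (hg := hg) (b := b) (σ := σ) h.1 hu
  omega

/-- the chosen descent of `a ≠ 1` -/
def dl (hg : IsG adj) (a : Raag adj) (ha : a ≠ 1) : V × Bool := Classical.choose (exists_desc hg ha)

theorem dl_desc (hg : IsG adj) (a : Raag adj) (ha : a ≠ 1) : Desc hg a (dl hg a ha) :=
  Classical.choose_spec (exists_desc hg ha)

variable (R) in
/-- the cone with a letter -/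
def cone (rk : V → ℕ) (k : ℕ) (s : V × Bool) (b : Raag adj) (σ : Finset V) : CC R adj (k + 1) :=
  if s.1 ∈ σ then 0 else
    (sgn rk s.1 (insert s.1 σ) * (if s.2 then 1 else -1)) • cell R (k + 1) (cb b s.1 s.2) (insert s.1 σ)

variable (R) in
/-- the cone operator -/
def kA (hg : IsG adj) (rk : V → ℕ) (k : ℕ) : CC R adj k →ₗ[R] CC R adj (k + 1) :=
  lc k fun b σ => if h : tp hg b σ = 1 then 0 else cone R rk k (dl hg (tp hg b σ) h) b σ

theorem kA_cell (hg : IsG adj) {rk : V → ℕ} {k : ℕ} {b : Raag adj} {σ : Finset V} (h : IsC adj k (b, σ))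
    {a : Raag adj} (ha : a ≠ 1) (hb : tp hg b σ = a) : kA R hg rk k (cell R k b σ) = cone R rk k (dl hg a ha) b σ := by
  subst hb
  unfold kA
  rw [lc_cell h, dif_neg ha]

theorem isC_cone (hg : IsG adj) {k : ℕ} {b : Raag adj} {σ : Finset V} (h : IsC adj k (b, σ)) {s : V × Bool}
    (hd : Desc hg (tp hg b σ) s) (hs : s.1 ∉ σ) : IsC adj (k + 1) (cb b s.1 s.2, insert s.1 σ) :=
  ⟨clq_insert h.1 hd hs, by
    have := h.2
    simp only at this ⊢
    rw [Finset.card_insert_of_notMem hs, this]⟩

theorem lam_cone (hg : IsG adj) {k : ℕ} {b : Raag adj} {σ : Finset V} (h : IsC adj k (b, σ)) {s : V × Bool}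
    (hd : Desc hg (tp hg b σ) s) (hs : s.1 ∉ σ) : lam hg (cb b s.1 s.2) (insert s.1 σ) = lam hg b σ := by
  have h1 := lam_tf (hg := hg) (b := cb b s.1 s.2) (clq_insert h.1 hd hs) (Finset.mem_insert_self s.1 σ)
  rw [tf_cb h.1 hd hs, Finset.erase_insert hs] at h1
  exact h1.symm

theorem cone_mem (hg : IsG adj) {rk : V → ℕ} {k n : ℕ} {b : Raag adj} {σ : Finset V} (h : IsC adj k (b, σ))
    {s : V × Bool} (hd : Desc hg (tp hg b σ) s) (hn : lam hg b σ < n) : cone R rk k s b σ ∈ Lw R hg (k + 1) n := by
  unfold cone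
  split_ifs with hs
  · exact zero_mem _
  all_goals
    refine zsmul_mem (cell_mem (isC_cone hg h hd hs) ?_) _
    rw [lam_cone hg h hd hs]
    exact hn

theorem kA_mem (hg : IsG adj) {rk : V → ℕ} {k n : ℕ} {x : CC R adj k} (hx : x ∈ Lw R hg k n) :
    kA R hg rk k x ∈ Lw R hg (k + 1) n := by
  unfold Lw at hx
  induction hx using Submodule.span_induction with
  | mem x hx =>
    obtain ⟨b, σ, h1, h2, rfl⟩ := hx
    by_cases ha : tp hg b σ = 1
    · unfold kA
      rw [lc_cell h1, dif_pos ha]
      exact zero_mem _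
    · rw [kA_cell hg h1 ha rfl]
      exact cone_mem hg h1 (dl_desc hg _ ha) h2
  | zero => rw [map_zero]; exact zero_mem _
  | add x y _ _ hx hy => rw [map_add]; exact add_mem hx hy
  | smul a x _ hx => rw [map_smul]; exact Submodule.smul_mem _ _ hx

/-- the sign rule for the cone -/
theorem sgn_cone (rk : V → ℕ) {u v : V} {σ : Finset V} (hu : u ∈ σ) (hv : v ∉ σ) (h : rk u ≠ rk v) :
    sgn rk u σ * sgn rk v (insert v (σ.erase u)) = -(sgn rk v (insert v σ) * sgn rk u (insert v σ)) := by
  have huv : u ≠ v := by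
    rintro rfl
    exact hv hu
  have h1 : σ = (insert v σ).erase v := (Finset.erase_insert hv).symm
  have h2 : insert v (σ.erase u) = (insert v σ).erase u := by
    rw [Finset.erase_insert_of_ne (Ne.symm huv)]
  rw [h2, sgn_erase rk (Finset.mem_insert_of_mem hu)]
  conv_lhs =>
    enter [1]
    rw [h1]
  rw [sgn_erase rk (Finset.mem_insert_self v σ)]
  rcases lt_or_gt_of_ne h with h3 | h3
  · simp only [h3, not_lt_of_gt h3, if_true, if_false]
    ring
  · have h4 : rk v < rk u := h3
    simp only [h4, not_lt_of_gt h4, if_true, if_false]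
    ring

/-- the sign of a letter -/
def es (e : Bool) : ℤ := if e then 1 else -1

theorem es_sq (e : Bool) : es e * es e = 1 := by cases e <;> rfl

theorem ez_cb (hg : IsG adj) {b : Raag adj} {σ : Finset V} (hσ : Clq adj σ) {v : V} {e : Bool}
    (hd : Desc hg (tp hg b σ) (v, e)) (hv : v ∉ σ) : ez hg (cb b v e) v = es e := by
  have h1 := up_cb hσ hd hv
  unfold ez es
  cases e
  · rw [if_pos (h1.2 rfl)]; rfl
  · rw [if_neg (fun h2 => by simpa using h1.1 h2)]; rfl

theorem ez_cb_adj (hg : IsG adj) {b : Raag adj} {u v : V} {e : Bool} (h : adj u v) :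
    ez hg (cb b v e) u = ez hg b u := by
  unfold ez
  simp only [up_cb_adj (hg := hg) (b := b) (e := e) h]

theorem cone_of (rk : V → ℕ) (k : ℕ) {v : V} {e : Bool} {b : Raag adj} {σ : Finset V} (hv : v ∉ σ) :
    cone R rk k (v, e) b σ = (sgn rk v (insert v σ) * es e) • cell R (k + 1) (cb b v e) (insert v σ) := by
  unfold cone
  rw [if_neg hv]
  rfl

/-- the top part of the boundary of the cone -/
theorem dT_cone (hg : IsG adj) {rk : V → ℕ} {k : ℕ} {b : Raag adj} {σ : Finset V} (h : IsC adj k (b, σ))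
    {v : V} {e : Bool} (hd : Desc hg (tp hg b σ) (v, e)) (hv : v ∉ σ) :
    dT R hg rk k (cb b v e) (insert v σ) = (sgn rk v (insert v σ) * es e) • cell R k b σ +
      ∑ u ∈ σ, (sgn rk u (insert v σ) * ez hg b u) •
        cell R k (cb (tf hg b u) v e) (insert v (σ.erase u)) := by
  have hc := clq_insert h.1 hd hv
  unfold dT
  rw [Finset.sum_insert hv, Finset.erase_insert hv, tf_cb h.1 hd hv, ez_cb hg h.1 hd hv]
  congr 1
  refine Finset.sum_congr rfl fun u hu => ?_
  have huv : u ≠ v := by
    rintro rfl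
    exact hv hu
  have hadj : adj u v := hc u (Finset.mem_insert_of_mem hu) v (Finset.mem_insert_self v σ) huv
  rw [tf_cb_adj hadj, ez_cb_adj hg hadj, Finset.erase_insert_of_ne (Ne.symm huv)]

/-- homotopy in degree `0` -/
theorem homot_zero (hg : IsG adj) {rk : V → ℕ} {b : Raag adj} {σ : Finset V} (h : IsC adj 0 (b, σ))
    (ha : tp hg b σ ≠ 1) :
    dA R adj rk 0 (kA R hg rk 0 (cell R 0 b σ)) - cell R 0 b σ ∈ Lw R hg 0 (lam hg b σ) := by
  have hσ : σ = ∅ := Finset.card_eq_zero.1 h.2
  rw [kA_cell hg h ha rfl]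
  have hd := dl_desc hg _ ha
  generalize dl hg _ ha = s at hd ⊢
  obtain ⟨v, e⟩ := s
  have hv : v ∉ σ := by rw [hσ]; exact Finset.notMem_empty v
  rw [cone_of rk 0 hv, map_zsmul]
  have h1 := dA_mod (R := R) hg (rk := rk) (isC_cone hg h hd hv) (lam_cone hg h hd hv).le
  rw [dT_cone hg h hd hv] at h1
  have h2 : (∑ u ∈ σ, (sgn rk u (insert v σ) * ez hg b u) •
        cell R 0 (cb (tf hg b u) v e) (insert v (σ.erase u))) = 0 := by
    subst hσ
    rfl
  rw [h2, add_zero] at h1
  have h3 := zsmul_mem h1 (sgn rk v (insert v σ) * es e)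
  convert h3 using 1
  rw [smul_sub, smul_smul]
  congr 1
  have h4 : sgn rk v (insert v σ) * es e * (sgn rk v (insert v σ) * es e) = 1 := by
    have h5 := sgn_sq rk v (insert v σ)
    have h6 := es_sq e
    calc _ = (sgn rk v (insert v σ) * sgn rk v (insert v σ)) * (es e * es e) := by ring
      _ = 1 := by rw [h5, h6, one_mul]
  rw [h4, one_smul]

/-- homotopy in positive degrees -/
theorem homot_succ (hg : IsG adj) {rk : V → ℕ} (hrk : IsR adj rk) {k : ℕ} {b : Raag adj} {σ : Finset V}
    (h : IsC adj (k + 1) (b, σ)) (ha : tp hg b σ ≠ 1) :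
    dA R adj rk (k + 1) (kA R hg rk (k + 1) (cell R (k + 1) b σ)) +
      kA R hg rk k (dA R adj rk k (cell R (k + 1) b σ)) - cell R (k + 1) b σ ∈ Lw R hg (k + 1) (lam hg b σ) := by
  rw [kA_cell hg h ha rfl]
  have hd := dl_desc hg _ ha
  -- the second term
  have h1 := kA_mem (rk := rk) hg (dA_mod (R := R) hg (rk := rk) h le_rfl)
  rw [map_sub] at h1
  have h2 : kA R hg rk k (dT R hg rk k b σ) =
      ∑ u ∈ σ, (sgn rk u σ * ez hg b u) • cone R rk k (dl hg _ ha) (tf hg b u) (σ.erase u) := by
    unfold dT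
    rw [map_sum]
    refine Finset.sum_congr rfl fun u hu => ?_
    rw [map_zsmul, kA_cell hg (h.erase hu) ha (tp_tf h.1 hu)]
  rw [h2] at h1
  generalize dl hg _ ha = s at hd h1 ⊢
  obtain ⟨v, e⟩ := s
  by_cases hv : v ∈ σ
  · have h3 : cone R rk (k + 1) (v, e) b σ = 0 := by
      unfold cone
      rw [if_pos hv]
    obtain ⟨h4, h5⟩ := cb_tf (hg := hg) (b := b) h.1 hd hv
    have h6 : ∑ u ∈ σ, (sgn rk u σ * ez hg b u) • cone R rk k (v, e) (tf hg b u) (σ.erase u) =
        cell R (k + 1) b σ := by
      rw [Finset.sum_eq_single v]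
      · rw [cone_of rk k (Finset.notMem_erase v σ), Finset.insert_erase hv, h4, smul_smul]
        have h7 : ez hg b v = es e := by
          unfold ez es
          cases e
          · rw [if_pos (h5.2 rfl)]; rfl
          · rw [if_neg (fun h8 => by simpa using h5.1 h8)]; rfl
        rw [h7]
        have h8 : sgn rk v σ * es e * (sgn rk v σ * es e) = 1 := by
          have h5 := sgn_sq rk v σ
          have h6 := es_sq e
          calc _ = (sgn rk v σ * sgn rk v σ) * (es e * es e) := by ring
            _ = 1 := by rw [h5, h6, one_mul]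
        rw [h8, one_smul]
      · intro u _ huv
        unfold cone
        rw [if_pos (Finset.mem_erase.2 ⟨Ne.symm huv, hv⟩), smul_zero]
      · intro h7
        exact absurd hv h7
    rw [h3, map_zero, zero_add]
    rw [h6] at h1
    exact h1
  · have hc := clq_insert h.1 hd hv
    rw [cone_of rk (k + 1) hv, map_zsmul]
    have h3 := dA_mod (R := R) hg (rk := rk) (isC_cone hg h hd hv) (lam_cone hg h hd hv).le
    rw [dT_cone hg h hd hv] at h3
    have h4 := zsmul_mem h3 (sgn rk v (insert v σ) * es e)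
    have h5 : ∑ u ∈ σ, (sgn rk u σ * ez hg b u) • cone R rk k (v, e) (tf hg b u) (σ.erase u) =
        -((sgn rk v (insert v σ) * es e) • ∑ u ∈ σ, (sgn rk u (insert v σ) * ez hg b u) •
          cell R (k + 1) (cb (tf hg b u) v e) (insert v (σ.erase u))) := by
      rw [Finset.smul_sum, ← Finset.sum_neg_distrib]
      refine Finset.sum_congr rfl fun u hu => ?_
      have huv : u ≠ v := by
        rintro rfl
        exact hv hu
      have hadj : adj u v := hc u (Finset.mem_insert_of_mem hu) v (Finset.mem_insert_self v σ) huv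
      have hv' : v ∉ σ.erase u := fun h6 => hv (Finset.mem_of_mem_erase h6)
      rw [cone_of rk k hv', smul_smul, smul_smul, ← neg_smul]
      congr 1
      have h6 := sgn_cone rk hu hv (hrk u v hadj)
      calc _ = (sgn rk u σ * sgn rk v (insert v (σ.erase u))) * (ez hg b u * es e) := by ring
        _ = _ := by rw [h6]; ring
    rw [h5] at h1
    have h6 := add_mem h4 h1
    convert h6 using 1
    have h7 : sgn rk v (insert v σ) * es e * (sgn rk v (insert v σ) * es e) = 1 := by
      have h5 := sgn_sq rk v (insert v σ)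
      have h6 := es_sq e
      calc _ = (sgn rk v (insert v σ) * sgn rk v (insert v σ)) * (es e * es e) := by ring
        _ = 1 := by rw [h5, h6, one_mul]
    rw [smul_sub, smul_add, smul_smul, h7, one_smul]
    abel

/-- **exactness in positive degrees** -/
theorem exact_succ (hg : IsG adj) {rk : V → ℕ} (hrk : IsR adj rk) {k : ℕ} {x : CC R adj (k + 1)}
    (hx : dA R adj rk k x = 0) : ∃ y, dA R adj rk (k + 1) y = x := by
  have step : ∀ n, ∀ x ∈ Lw R hg (k + 1) (n + 2),
      x - dA R adj rk (k + 1) (kA R hg rk (k + 1) x) - kA R hg rk k (dA R adj rk k x) ∈ Lw R hg (k + 1) (n + 1) := by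
    intro n x hx
    unfold Lw at hx
    induction hx using Submodule.span_induction with
    | mem x hx =>
      obtain ⟨b, σ, h1, h2, rfl⟩ := hx
      have hσ : σ ≠ ∅ := by
        rintro rfl
        have := h1.2
        simp at this
      have h3 : lam hg b σ ≠ 0 := fun h4 => hσ (lam_eq_zero h4).2
      have h4 : tp hg b σ ≠ 1 := by
        intro h5
        have h6 := len_tp (hg := hg) (b := b) h1.1
        rw [h5, len_one] at h6
        exact h3 h6.symm
      have h5 := neg_mem (homot_succ (R := R) hg hrk h1 h4)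
      have h6 : lam hg b σ ≤ n + 1 := by omega
      have h7 := Lw_mono h6 h5
      convert h7 using 1
      abel
    | zero => simp only [map_zero, sub_self]; exact zero_mem _
    | add x y _ _ hx hy =>
      have := add_mem hx hy
      convert this using 1
      simp only [map_add]
      abel
    | smul a x _ hx =>
      have := Submodule.smul_mem _ a hx
      convert this using 1
      simp only [map_smul, smul_sub]
  have main : ∀ n, ∀ x ∈ Lw R hg (k + 1) (n + 1), dA R adj rk k x = 0 → ∃ y, dA R adj rk (k + 1) y = x := by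
    intro n
    induction n with
    | zero =>
      intro x hx _
      exact ⟨0, by rw [map_zero, Lw_one hg hx]⟩
    | succ n ih =>
      intro x hx h1
      have h2 := step n x hx
      rw [h1, map_zero, sub_zero] at h2
      obtain ⟨y, hy⟩ := ih _ h2 (by rw [map_sub, h1, dA_dA hrk, sub_zero])
      exact ⟨y + kA R hg rk (k + 1) x, by rw [map_add, hy, sub_add_cancel]⟩
  obtain ⟨n, hn⟩ := exists_Lw hg x
  exact main n x (Lw_mono (Nat.le_succ n) hn) hx

/-- **exactness in degree zero** -/
theorem exact_zero (hg : IsG adj) {rk : V → ℕ} {x : CC R adj 0} (hx : eA R adj x = 0) :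
    ∃ y, dA R adj rk 0 y = x := by
  have step : ∀ n, ∀ x ∈ Lw R hg 0 (n + 2), x - dA R adj rk 0 (kA R hg rk 0 x) ∈ Lw R hg 0 (n + 1) := by
    intro n x hx
    unfold Lw at hx
    induction hx using Submodule.span_induction with
    | mem x hx =>
      obtain ⟨b, σ, h1, h2, rfl⟩ := hx
      by_cases h4 : tp hg b σ = 1
      · have h5 : kA R hg rk 0 (cell R 0 b σ) = 0 := by
          unfold kA
          rw [lc_cell h1, dif_pos h4]
        rw [h5, map_zero, sub_zero]
        refine cell_mem h1 ?_
        rw [← len_tp h1.1, h4, len_one]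
        omega
      · have h5 := neg_mem (homot_zero (R := R) (rk := rk) hg h1 h4)
        have h6 : lam hg b σ ≤ n + 1 := by omega
        have h7 := Lw_mono h6 h5
        convert h7 using 1
        abel
    | zero => simp only [map_zero, sub_self]; exact zero_mem _
    | add x y _ _ hx hy =>
      have := add_mem hx hy
      convert this using 1
      simp only [map_add]
      abel
    | smul a x _ hx =>
      have := Submodule.smul_mem _ a hx
      convert this using 1
      simp only [map_smul, smul_sub]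
  have main : ∀ n, ∀ x ∈ Lw R hg 0 (n + 1), eA R adj x = 0 → ∃ y, dA R adj rk 0 y = x := by
    intro n
    induction n with
    | zero =>
      intro x hx h1
      obtain ⟨r, rfl⟩ := Lw_one_zero hg hx
      rw [map_smul, eA_cell (show IsC adj 0 (1, ∅) from ⟨clq_empty, rfl⟩), smul_eq_mul, mul_one] at h1
      exact ⟨0, by rw [map_zero, h1, zero_smul]⟩
    | succ n ih =>
      intro x hx h1
      have h2 := step n x hx
      obtain ⟨y, hy⟩ := ih _ h2 (by rw [map_sub, h1, eA_dA, sub_zero])
      exact ⟨y + kA R hg rk 0 x, by rw [map_add, hy, sub_add_cancel]⟩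
  obtain ⟨n, hn⟩ := exists_Lw hg x
  exact main n x (Lw_mono (Nat.le_succ n) hn) hx

end

end Pool.Agent.H3.RA
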