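import Pool.Agent.H59.FS.Zed
import Pool.Agent.H3.RA.Ex

/-!
# [H3 RA] chains of a partially ordered set as cliques of the comparability graph
-/

namespace Pool.Agent.H3.RA

open Pool.Agent.H59.FS
open scoped Classical

noncomputable section

variable {V : Type} [PartialOrder V]

theorem isG_adjP : IsG (adjP V) := ⟨fun _ _ h => h.symm, fun v h => h.elim (lt_irrefl v) (lt_irrefl v)⟩

/-- a rank function -/
theorem exists_rk {m : ℕ} (hm : IsEmpty (Chn V (m + 1))) : ∃ rk : V → ℕ, StrictMono rk := by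
  have hfin : ∀ v : V, Order.height v < (m : ℕ∞) := by
    intro v
    by_contra h
    rw [not_lt] at h
    obtain ⟨p, -, hp⟩ := Order.exists_series_of_le_height v h
    refine hm.false ⟨fun i => p (Fin.cast (by rw [hp]) i), ?_⟩
    intro i j hij
    exact p.strictMono (by simpa using hij)
  refine ⟨fun v => (Order.height v).toNat, fun v w h => ?_⟩
  have h1 : Order.height v < Order.height w := Order.height_strictMono h ((hfin v).trans_le le_top)
  have h2 := (hfin w).ne_top
  have h3 := (hfin v).ne_top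
  change (Order.height v).toNat < (Order.height w).toNat
  rw [← Nat.cast_lt (α := ℕ∞), ENat.natCast_toNat h3, ENat.natCast_toNat h2]
  exact h1

theorem isR_of_strictMono {rk : V → ℕ} (h : StrictMono rk) : IsR (adjP V) rk := by
  rintro v w (h1 | h1)
  · exact (h h1).ne
  · exact (h h1).ne'

/-- the set of the elements of a chain -/
def fs {n : ℕ} (s : Chn V n) : Finset V := Finset.univ.map ⟨s.1, s.2.injective⟩

theorem mem_fs {n : ℕ} {s : Chn V n} {v : V} : v ∈ fs s ↔ ∃ i, s.1 i = v := by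
  unfold fs
  simp

theorem card_fs {n : ℕ} (s : Chn V n) : (fs s).card = n := by
  unfold fs
  rw [Finset.card_map, Finset.card_univ, Fintype.card_fin]

theorem clq_fs {n : ℕ} (s : Chn V n) : Clq (adjP V) (fs s) := by
  intro v hv w hw hvw
  obtain ⟨i, rfl⟩ := mem_fs.1 hv
  obtain ⟨j, rfl⟩ := mem_fs.1 hw
  rcases lt_trichotomy i j with h | h | h
  · exact Or.inl (s.2 h)
  · subst h; exact absurd rfl hvw
  · exact Or.inr (s.2 h)

theorem isC_fs {n : ℕ} (a : RA V) (s : Chn V n) : IsC (adjP V) n (a, fs s) := ⟨clq_fs s, card_fs s⟩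

theorem fs_del {n : ℕ} (s : Chn V (n + 1)) (i : Fin (n + 1)) : fs (s.del i) = (fs s).erase (s.1 i) := by
  ext v
  rw [Finset.mem_erase, mem_fs, mem_fs]
  constructor
  · rintro ⟨j, rfl⟩
    exact ⟨fun h => Fin.succAbove_ne i j (s.2.injective h), _, rfl⟩
  · rintro ⟨h, j, rfl⟩
    have h1 : j ≠ i := by
      rintro rfl
      exact h rfl
    obtain ⟨l, hl⟩ := Fin.exists_succAbove_eq h1
    exact ⟨l, congrArg s.1 hl⟩

theorem filter_fs {rk : V → ℕ} (hrk : StrictMono rk) {n : ℕ} (s : Chn V n) (i : Fin n) :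
    ((fs s).filter fun w => rk w < rk (s.1 i)).card = i := by
  have h1 : ((fs s).filter fun w => rk w < rk (s.1 i)) =
      (Finset.univ.filter fun j : Fin n => j < i).map ⟨s.1, s.2.injective⟩ := by
    ext v
    simp only [Finset.mem_filter, mem_fs, Finset.mem_map, Finset.mem_univ, true_and, Function.Embedding.coeFn_mk]
    constructor
    · rintro ⟨⟨j, rfl⟩, h⟩
      refine ⟨j, ?_, rfl⟩
      by_contra h2
      rw [not_lt] at h2
      exact absurd h (not_lt.2 (hrk.monotone (s.2.monotone h2)))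
    · rintro ⟨j, h, rfl⟩
      exact ⟨⟨j, rfl⟩, hrk (s.2 h)⟩
  have h2 : (Finset.univ.filter fun j : Fin n => j < i) = Finset.Iio i := by
    ext j
    rw [Finset.mem_filter, Finset.mem_Iio]
    exact ⟨fun h => h.2, fun h => ⟨Finset.mem_univ _, h⟩⟩
  rw [h1, Finset.card_map, h2, Fin.card_Iio]

theorem sgn_fs {rk : V → ℕ} (hrk : StrictMono rk) {n : ℕ} (s : Chn V n) (i : Fin n) :
    sgn rk (s.1 i) (fs s) = (-1) ^ (i : ℕ) := by
  unfold sgn
  rw [filter_fs hrk]

/-- a chain is determined by its set -/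
theorem fs_inj {rk : V → ℕ} (hrk : StrictMono rk) {n : ℕ} {s s' : Chn V n} (h : fs s = fs s') : s = s' := by
  apply Subtype.ext
  funext i
  have h1 : s.1 i ∈ fs s' := by rw [← h]; exact mem_fs.2 ⟨i, rfl⟩
  obtain ⟨j, hj⟩ := mem_fs.1 h1
  have h2 := filter_fs hrk s i
  have h3 := filter_fs hrk s' j
  rw [hj, ← h, h2] at h3
  have h4 : i = j := Fin.ext h3
  rw [← hj, h4]

/-- a clique of the comparability graph is a chain -/
theorem exists_chn {rk : V → ℕ} (hrk : StrictMono rk) {n : ℕ} {σ : Finset V} (hσ : Clq (adjP V) σ)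
    (hn : σ.card = n) : ∃ s : Chn V n, fs s = σ := by
  have hinj : Set.InjOn rk σ := by
    intro v hv w hw h
    by_contra h1
    exact isR_of_strictMono hrk v w (hσ v hv w hw h1) h
  have hc : (σ.image rk).card = n := by
    rw [Finset.card_image_of_injOn hinj, hn]
  have h1 : ∀ i : Fin n, ∃ v ∈ σ, rk v = (σ.image rk).orderEmbOfFin hc i := by
    intro i
    have := (σ.image rk).orderEmbOfFin_mem hc i
    exact Finset.mem_image.1 this
  choose f hf1 hf2 using h1
  have hmono : StrictMono f := by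
    intro i j hij
    have h2 : rk (f i) < rk (f j) := by
      rw [hf2, hf2]
      exact ((σ.image rk).orderEmbOfFin hc).strictMono hij
    have h3 : f i ≠ f j := fun h => by rw [h] at h2; exact lt_irrefl _ h2
    rcases hσ _ (hf1 i) _ (hf1 j) h3 with h4 | h4
    · exact h4
    · exact absurd (hrk h4) (not_lt.2 h2.le)
  refine ⟨⟨f, hmono⟩, ?_⟩
  refine Finset.eq_of_subset_of_card_le ?_ ?_
  · intro v hv
    obtain ⟨i, rfl⟩ := mem_fs.1 hv
    exact hf1 i
  · rw [card_fs, hn]

/-! ## chains with and without `⊤` -/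

/-- the chain contains `⊤` -/
def HasT {n : ℕ} (s : Chn (WithTop V) n) : Prop := ∃ j, s.1 j = ⊤

/-- a chain in `V` as a chain in `WithTop V` -/
def up {n : ℕ} (s : Chn V n) : Chn (WithTop V) n := ⟨fun i => (s.1 i : WithTop V), fun _ _ h => WithTop.coe_lt_coe.2 (s.2 h)⟩

/-- a chain in `V` with `⊤` added -/
def upT {n : ℕ} (s : Chn V n) : Chn (WithTop V) (n + 1) :=
  ⟨Fin.snoc (α := fun _ => WithTop V) (fun i => (s.1 i : WithTop V)) ⊤, by
    intro i j hij
    induction j using Fin.lastCases with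
    | last =>
      induction i using Fin.lastCases with
      | last => exact absurd hij (lt_irrefl _)
      | cast i =>
        rw [Fin.snoc_castSucc, Fin.snoc_last]
        exact WithTop.coe_lt_top _
    | cast j =>
      induction i using Fin.lastCases with
      | last => exact absurd hij (not_lt.2 (Fin.le_last _))
      | cast i =>
        rw [Fin.snoc_castSucc, Fin.snoc_castSucc]
        exact WithTop.coe_lt_coe.2 (s.2 (Fin.castSucc_lt_castSucc_iff.1 hij))⟩

theorem not_hasT_up {n : ℕ} (s : Chn V n) : ¬ HasT (up s) := fun ⟨_, hj⟩ => WithTop.coe_ne_top hj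

theorem upT_last {n : ℕ} (s : Chn V n) : (upT s).1 (Fin.last n) = ⊤ := by
  exact Fin.snoc_last (α := fun _ => WithTop V) ⊤ (fun i => (s.1 i : WithTop V))

theorem upT_cast {n : ℕ} (s : Chn V n) (i : Fin n) : (upT s).1 i.castSucc = s.1 i := by
  exact Fin.snoc_castSucc (α := fun _ => WithTop V) ⊤ (fun i => (s.1 i : WithTop V)) i

theorem hasT_upT {n : ℕ} (s : Chn V n) : HasT (upT s) := ⟨_, upT_last s⟩

theorem exists_up {n : ℕ} {s : Chn (WithTop V) n} (h : ¬ HasT s) : ∃ s' : Chn V n, s = up s' := by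
  have h1 : ∀ i, ∃ v : V, s.1 i = v := by
    intro i
    have h2 : s.1 i ≠ ⊤ := fun h3 => h ⟨i, h3⟩
    exact ⟨(s.1 i).untop h2, (WithTop.coe_untop _ h2).symm⟩
  choose f hf using h1
  refine ⟨⟨f, ?_⟩, ?_⟩
  · intro i j hij
    have := s.2 hij
    rw [hf, hf] at this
    exact WithTop.coe_lt_coe.1 this
  · apply Subtype.ext
    funext i
    exact hf i

theorem hasT_iff {n : ℕ} {s : Chn (WithTop V) (n + 1)} : HasT s ↔ s.1 (Fin.last n) = ⊤ := by
  constructor
  · rintro ⟨j, hj⟩
    rw [← top_le_iff, ← hj]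
    exact s.2.monotone (Fin.le_last j)
  · intro h
    exact ⟨_, h⟩

theorem exists_upT {n : ℕ} {s : Chn (WithTop V) (n + 1)} (h : HasT s) : ∃ s' : Chn V n, s = upT s' := by
  have h0 := hasT_iff.1 h
  have h1 : ¬ HasT (s.del (Fin.last n)) := by
    rintro ⟨j, hj⟩
    have h2 : s.1 ((Fin.last n).succAbove j) = ⊤ := hj
    rw [← h0] at h2
    exact Fin.succAbove_ne _ _ (s.2.injective h2)
  obtain ⟨s', hs'⟩ := exists_up h1
  refine ⟨s', ?_⟩
  apply Subtype.ext
  funext i
  induction i using Fin.lastCases with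
  | last => rw [upT_last, h0]
  | cast i =>
    rw [upT_cast]
    have h2 := congrArg (fun t => t.1 i) hs'
    have h3 : (s.del (Fin.last n)).1 i = s.1 i.castSucc := by
      change s.1 ((Fin.last n).succAbove i) = _
      rw [Fin.succAbove_last]
    rw [← h3]
    exact h2

theorem upT_del_last {n : ℕ} (s : Chn V n) : (upT s).del (Fin.last n) = up s := by
  apply Subtype.ext
  funext i
  change (upT s).1 ((Fin.last n).succAbove i) = _
  rw [Fin.succAbove_last, upT_cast]
  rfl

theorem up_del {n : ℕ} (s : Chn V (n + 1)) (i : Fin (n + 1)) : (up s).del i = up (s.del i) := rfl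

theorem hasT_del {n : ℕ} {s : Chn (WithTop V) (n + 1)} (h : HasT s) {i : Fin (n + 1)} (hi : i ≠ Fin.last n) :
    HasT (s.del i) := by
  obtain ⟨j, hj⟩ := Fin.exists_succAbove_eq (Ne.symm hi)
  refine ⟨j, ?_⟩
  change s.1 (i.succAbove j) = ⊤
  rw [hj]
  exact hasT_iff.1 h

theorem not_hasT_del {n : ℕ} {s : Chn (WithTop V) (n + 1)} (h : ¬ HasT s) (i : Fin (n + 1)) : ¬ HasT (s.del i) :=
  fun ⟨_, hj⟩ => h ⟨_, hj⟩

theorem up_injective {n : ℕ} {s s' : Chn V n} (h : up s = up s') : s = s' := by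
  apply Subtype.ext
  funext i
  exact WithTop.coe_injective (congrArg (fun t => t.1 i) h)

end

end Pool.Agent.H3.RA
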