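import Pool.Agent.H3.RA.Defs

/-!
# [H3 RA] potentials on right-angled Artin groups, limits of extensions
-/

namespace Pool.Agent.H3.RA

noncomputable section

variable {V : Type} {adj : V → V → Prop} {H : Type} [Group H]

/-- the permutation `(a, x) ↦ (a v, x F (a, v))` -/
def potP (F : Raag adj → V → H) (v : V) : Equiv.Perm (Raag adj × H) where
  toFun x := (x.1 * gen adj v, x.2 * F x.1 v)
  invFun x := (x.1 * (gen adj v)⁻¹, x.2 * (F (x.1 * (gen adj v)⁻¹) v)⁻¹)
  left_inv x := by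
    refine Prod.ext ?_ ?_
    · change x.1 * gen adj v * (gen adj v)⁻¹ = x.1
      group
    · change x.2 * F x.1 v * (F (x.1 * gen adj v * (gen adj v)⁻¹) v)⁻¹ = x.2
      rw [mul_inv_cancel_right, mul_inv_cancel_right]
  right_inv x := by
    refine Prod.ext ?_ ?_
    · change x.1 * (gen adj v)⁻¹ * gen adj v = x.1
      group
    · change x.2 * (F (x.1 * (gen adj v)⁻¹) v)⁻¹ * F (x.1 * (gen adj v)⁻¹) v = x.2
      rw [inv_mul_cancel_right]

/-- **potentials**: a function on the edges with the square relation is the coboundary of a function -/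
theorem exists_pot (F : Raag adj → V → H)
    (hF : ∀ a v w, adj v w → F a v * F (a * gen adj v) w = F a w * F (a * gen adj w) v) :
    ∃ h : Raag adj → H, ∀ a v, h (a * gen adj v) = h a * F a v := by
  let Φ : Raag adj →* (Equiv.Perm (Raag adj × H))ᵐᵒᵖ :=
    lift (adj := adj) (fun v => MulOpposite.op (potP F v)) fun v w hvw => by
      rw [← MulOpposite.op_mul, ← MulOpposite.op_mul]
      congr 1
      ext1 x
      refine Prod.ext ?_ ?_
      · change x.1 * gen adj v * gen adj w = x.1 * gen adj w * gen adj v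
        rw [mul_assoc, gen_comm hvw, mul_assoc]
      · change x.2 * F x.1 v * F (x.1 * gen adj v) w = x.2 * F x.1 w * F (x.1 * gen adj w) v
        rw [mul_assoc, hF _ _ _ hvw, mul_assoc]
  have hΦ : ∀ v, Φ (gen adj v) = MulOpposite.op (potP F v) := fun v => lift_gen _ _ v
  have h1 : ∀ a, ((Φ a).unop (1, 1)).1 = a := by
    intro a
    induction a using ind_right with
    | h1 => rw [map_one]; rfl
    | h2 a s ih =>
      unfold ltr
      split_ifs
      · rw [map_mul, hΦ, MulOpposite.unop_mul, MulOpposite.unop_op]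
        change ((Φ a).unop (1, 1)).1 * gen adj s.1 = _
        rw [ih]
      · rw [map_mul, map_inv, hΦ, MulOpposite.unop_mul, MulOpposite.unop_inv, MulOpposite.unop_op]
        change ((Φ a).unop (1, 1)).1 * (gen adj s.1)⁻¹ = _
        rw [ih]
  refine ⟨fun a => ((Φ a).unop (1, 1)).2, fun a v => ?_⟩
  dsimp only
  rw [map_mul, hΦ, MulOpposite.unop_mul, MulOpposite.unop_op]
  change ((Φ a).unop (1, 1)).2 * F ((Φ a).unop (1, 1)).1 v = _
  rw [h1]

/-- potentials on the line -/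
theorem exists_line (g : ℤ → H) : ∃ τ : ℤ → H, ∀ l, τ (l + 1) = τ l * g l := by
  let p : ℕ → H := fun n => Nat.rec 1 (fun n x => x * g n) n
  let q : ℕ → H := fun n => Nat.rec 1 (fun n x => x * (g (-(n + 1 : ℕ)))⁻¹) n
  refine ⟨fun l => if 0 ≤ l then p l.toNat else q (-l).toNat, fun l => ?_⟩
  dsimp only
  rcases le_or_gt 0 l with h | h
  · rw [if_pos (by omega), if_pos h]
    obtain ⟨n, rfl⟩ := Int.eq_ofNat_of_zero_le h
    have h1 : ((n : ℤ) + 1).toNat = n + 1 := by omega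
    have h2 : (n : ℤ).toNat = n := by omega
    rw [h1, h2]
  · rw [if_neg (not_le.2 h)]
    obtain ⟨n, hn⟩ : ∃ n : ℕ, l = -(n + 1 : ℕ) := ⟨(-l - 1).toNat, by omega⟩
    subst hn
    have h2 : (-(-((n + 1 : ℕ) : ℤ))).toNat = n + 1 := by omega
    rw [h2]
    have h3 : q (n + 1) = q n * (g (-((n + 1 : ℕ) : ℤ)))⁻¹ := rfl
    rw [h3, inv_mul_cancel_right]
    by_cases h4 : n = 0
    · subst h4
      rw [if_pos (by omega)]
      have h5 : (-((0 + 1 : ℕ) : ℤ) + 1).toNat = 0 := by omega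
      rw [h5]
      rfl
    · rw [if_neg (by omega)]
      congr 1
      omega

/-- an abstract suspension: cocycles with values in a group -/
theorem exists_susp {D : Type} (A : D → D → Prop) (Φ : D → D → H) (hs : ∀ u w, A u w → A w u)
    (hi : ∀ u w, A u w → Φ u w * Φ w u = 1)
    (ht : ∀ u w z, A u w → A w z → A u z → Φ u w * Φ w z = Φ u z) (N S : D) (hne : N ≠ S) (D' : Set D)
    (hN : ∀ u ∈ D', A u N) (hS : ∀ u ∈ D', A u S) (hNS : ¬ A N S) (hNN : ¬ A N N) (hSS : ¬ A S S)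
    (hA : ∀ u w, A u w → u ∈ D' ∨ u = N ∨ u = S) (u0 : D)
    (hND : N ∉ D') (hSD : S ∉ D')
    (hc : ∀ f : D → Prop, (∀ u ∈ D', ∀ w ∈ D', A u w → (f u ↔ f w)) → ∀ u ∈ D', f u ↔ f u0) :
    ∃ X : D → H, ∀ u w, A u w → X u = Φ u w * X w := by
  classical
  have hg : ∀ u ∈ D', Φ S u * Φ u N = Φ S u0 * Φ u0 N := by
    intro u hu
    refine (hc (fun u => Φ S u * Φ u N = Φ S u0 * Φ u0 N) ?_ u hu).2 rfl
    intro u hu w hw huw
    have h1 : Φ S u * Φ u N = Φ S w * Φ w N := by
      rw [← ht u w N huw (hN w hw) (hN u hu), ← mul_assoc, ht S u w (hs _ _ (hS u hu)) huw (hs _ _ (hS w hw))]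
    rw [h1]
  have hX1 : ∀ u ∈ D', (if u = N then (1 : H) else if u = S then Φ S u0 * Φ u0 N else Φ u N) = Φ u N := by
    intro u hu
    rw [if_neg (fun h : u = N => hND (h ▸ hu)), if_neg (fun h : u = S => hSD (h ▸ hu))]
  refine ⟨fun u => if u = N then 1 else if u = S then Φ S u0 * Φ u0 N else Φ u N, fun u w huw => ?_⟩
  dsimp only
  have hwu := hs _ _ huw
  rcases hA _ _ huw with hu | rfl | rfl
  · rw [hX1 u hu]
    rcases hA _ _ hwu with hw | rfl | rfl
    · rw [hX1 w hw, ht u w N huw (hN w hw) (hN u hu)]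
    · rw [if_pos rfl, mul_one]
    · rw [if_neg (Ne.symm hne), if_pos rfl, ← hg u hu, ← mul_assoc, hi _ _ huw, one_mul]
  · rw [if_pos rfl]
    rcases hA _ _ hwu with hw | rfl | rfl
    · rw [hX1 w hw, hi _ _ huw]
    · exact absurd huw hNN
    · exact absurd huw hNS
  · rw [if_neg (Ne.symm hne), if_pos rfl]
    rcases hA _ _ hwu with hw | rfl | rfl
    · rw [hX1 w hw, hg w hw]
    · exact absurd hwu hNS
    · exact absurd huw hSS

/-- limits of extensions: `P α β e` a property of the values of `e` on `S α β = {x | α ≤ h x, h x + c ≤ β}` -/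
theorem exists_limit {X Y : Type} (h : X → ℤ) (c : ℤ) (P : ℤ → ℤ → (X → Y) → Prop)
    (hloc : ∀ α β e e', (∀ x, α ≤ h x → h x + c ≤ β → e x = e' x) → P α β e → P α β e')
    (hmono : ∀ α β α' β' e, α ≤ α' → β' ≤ β → P α β e → P α' β' e)
    (hstep : ∀ α β e, α + 4 ≤ β → P α β e → ∃ e', P (α - 1) (β + 1) e' ∧
      ∀ x, α ≤ h x → h x + c ≤ β → e' x = e x)
    (α β : ℤ) (hαβ : α + 4 ≤ β) (e : X → Y) (he : P α β e) :
    ∃ e', (∀ α' β', P α' β' e') ∧ ∀ x, α ≤ h x → h x + c ≤ β → e' x = e x := by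
  classical
  have h1 : ∀ n : ℕ, ∀ e : {e : X → Y // P (α - n) (β + n) e}, ∃ e' : {e : X → Y // P (α - (n + 1 : ℕ)) (β + (n + 1 : ℕ)) e},
      ∀ x, α - n ≤ h x → h x + c ≤ β + n → e'.1 x = e.1 x := by
    rintro n ⟨e, he⟩
    obtain ⟨e', h2, h3⟩ := hstep _ _ e (by omega) he
    refine ⟨⟨e', ?_⟩, h3⟩
    have h4 : α - ((n + 1 : ℕ) : ℤ) = α - n - 1 := by push_cast; ring
    have h5 : β + ((n + 1 : ℕ) : ℤ) = β + n + 1 := by push_cast; ring
    rw [h4, h5]
    exact h2
  choose nx hnx using h1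
  let E : ∀ n : ℕ, {e : X → Y // P (α - n) (β + n) e} := fun n =>
    Nat.rec (motive := fun n => {e : X → Y // P (α - (n : ℕ)) (β + (n : ℕ)) e}) ⟨e, by simpa using he⟩ (fun n e => nx n e) n
  have hE0 : (E 0).1 = e := rfl
  have hE : ∀ n, E (n + 1) = nx n (E n) := fun n => rfl
  -- stability
  have hst : ∀ n m : ℕ, n ≤ m → ∀ x, α - n ≤ h x → h x + c ≤ β + n → (E m).1 x = (E n).1 x := by
    intro n m hnm
    induction m, hnm using Nat.le_induction with
    | base => intro x _ _; rfl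
    | succ m hm ih =>
      intro x h2 h3
      rw [hE, hnx m (E m) x (by omega) (by omega), ih x h2 h3]
  let N : X → ℕ := fun x => (h x - α).natAbs + (h x + c - β).natAbs
  have hN1 : ∀ x, α - N x ≤ h x := fun x => by
    change α - ((((h x - α).natAbs + (h x + c - β).natAbs : ℕ)) : ℤ) ≤ h x
    omega
  have hN2 : ∀ x, h x + c ≤ β + N x := fun x => by
    change h x + c ≤ β + ((((h x - α).natAbs + (h x + c - β).natAbs : ℕ)) : ℤ)
    omega
  have hlim : ∀ n : ℕ, ∀ x, α - n ≤ h x → h x + c ≤ β + n → (E (N x)).1 x = (E n).1 x := by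
    intro n x h2 h3
    rcases le_total n (N x) with h4 | h4
    · exact hst n (N x) h4 x h2 h3
    · exact (hst (N x) n h4 x (hN1 x) (hN2 x)).symm
  refine ⟨fun x => (E (N x)).1 x, ?_, ?_⟩
  · intro α' β'
    let n : ℕ := (α - α').natAbs + (β' - β).natAbs
    have h2 : P (α - n) (β + n) fun x => (E (N x)).1 x :=
      hloc _ _ (E n).1 _ (fun x h3 h4 => (hlim n x h3 h4).symm) (E n).2
    refine hmono _ _ _ _ _ ?_ ?_ h2
    · change α - ((((α - α').natAbs + (β' - β).natAbs : ℕ)) : ℤ) ≤ α'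
      omega
    · change β' ≤ β + ((((α - α').natAbs + (β' - β).natAbs : ℕ)) : ℤ)
      omega
  · intro x h2 h3
    have h4 := hlim 0 x (by simpa using h2) (by simpa using h3)
    rw [hE0] at h4
    exact h4

end

end Pool.Agent.H3.RA
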