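import Pool.Agent.H3.RA.Wd

/-!
# [H3 RA] right-angled Artin groups are torsion-free
-/

namespace Pool.Agent.H3.RA

noncomputable section

variable {V : Type} {adj : V → V → Prop}

theorem ivl_ne (s : V × Bool) : ivl s ≠ s := by
  obtain ⟨v, b⟩ := s
  unfold ivl
  cases b <;> simp

theorem ltr_mem_lkS {v : V} {s : V × Bool} (h : adj v s.1) : ltr adj s ∈ lkS adj v := by
  unfold ltr
  split_ifs
  · exact gen_mem_lkS h
  · exact inv_mem (gen_mem_lkS h)

theorem pr_mem_lkS {v : V} {L : List (V × Bool)} (h : ∀ r ∈ L, adj v r.1) : pr adj L ∈ lkS adj v := by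
  induction L with
  | nil => exact one_mem _
  | cons s L ih =>
    have h1 : pr adj (s :: L) = ltr adj s * pr adj L := by
      unfold pr
      simp
    rw [h1]
    exact mul_mem (ltr_mem_lkS (h s List.mem_cons_self)) (ih fun r hr => h r (List.mem_cons_of_mem _ hr))

theorem pr_cons (s : V × Bool) (L : List (V × Bool)) : pr adj (s :: L) = ltr adj s * pr adj L := by
  unfold pr
  simp

/-- the power of a word -/
def lp (L : List (V × Bool)) : ℕ → List (V × Bool)
  | 0 => []
  | n + 1 => lp L n ++ L

theorem pr_lp (L : List (V × Bool)) (n : ℕ) : pr adj (lp L n) = pr adj L ^ n := by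
  induction n with
  | zero => rw [pow_zero]; rfl
  | succ n ih => rw [pow_succ, ← ih, ← pr_append]; rfl

theorem length_lp (L : List (V × Bool)) (n : ℕ) : (lp L n).length = n * L.length := by
  induction n with
  | zero => simp [lp]
  | succ n ih => rw [Nat.add_one_mul, ← ih, ← List.length_append]; rfl

/-- the powers of a cyclically reduced word are reduced -/
theorem red_lp (hg : IsG adj) {L : List (V × Bool)} (hL : Red hg L)
    (hc : ∀ s, len hg (pr adj L) ≤ len hg ((ltr adj s)⁻¹ * pr adj L * ltr adj s)) :
    ∀ n L' L'', L = L' ++ L'' → Red hg (lp L n ++ L') := by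
  intro n
  induction n with
  | zero =>
    intro L' L'' h
    rw [h] at hL
    exact hL.left
  | succ n ihn =>
    intro L'
    induction L' using List.reverseRecOn with
    | nil =>
      intro L'' _
      have h1 := ihn L [] (by simp)
      rw [List.append_nil]
      exact h1
    | append_singleton L' s ih =>
      intro L'' h
      have hLs : L = L' ++ s :: L'' := by rw [h]; simp
      have h1 := ih (s :: L'') hLs
      rw [← List.append_assoc]
      have hback : ∀ N M₂ : List (V × Bool), L' = N ++ ivl s :: M₂ → (∀ r ∈ M₂, adj s.1 r.1) → False := by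
        intro N M₂ h2 h3
        have h4 : Red hg (L' ++ [s]) := by
          have : L = (L' ++ [s]) ++ L'' := by rw [hLs]; simp
          rw [this] at hL
          exact hL.left
        have h5 : pr adj (L' ++ [s]) = pr adj (N ++ M₂) := by
          rw [pr_snoc, h2, pr_append, pr_cons, pr_append, mul_assoc, mul_assoc,
            ← ltr_comm_lkS (pr_mem_lkS h3), ← mul_assoc (ltr adj (ivl s)), ltr_ivl, inv_mul_cancel, one_mul]
        have h6 := len_pr_le hg (N ++ M₂)
        unfold Red at h4
        rw [← h5, h4, h2] at h6
        simp only [List.length_append, List.length_cons, List.length_nil] at h6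
        omega
      by_contra h2
      have h3 : Dc hg (pr adj (lp L (n + 1) ++ L')) (hyp (pr adj (lp L (n + 1) ++ L')) s) ≠ 0 := by
        intro h4
        apply h2
        unfold Red at h1 ⊢
        rw [pr_snoc, len_up hg h4, h1, List.length_append (bs := [s])]
        rfl
      obtain ⟨M₁, M₂, h4, h5, -⟩ := h1.exch h3
      have h6 : lp L (n + 1) ++ L' = (lp L n ++ L') ++ s :: (L'' ++ L') := by
        have e1 : L ++ L' = L' ++ s :: (L'' ++ L') :=
          calc L ++ L' = (L' ++ s :: L'') ++ L' := congrArg (· ++ L') hLs
            _ = _ := by simp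
        change (lp L n ++ L) ++ L' = _
        rw [List.append_assoc, e1, List.append_assoc]
      rw [h6] at h4
      rcases List.append_eq_append_iff.1 h4 with ⟨N, h7, h8⟩ | ⟨N, h7, h8⟩
      · cases N with
        | nil =>
          simp only [List.nil_append, List.cons.injEq] at h8
          exact ivl_ne s h8.1.symm
        | cons x N =>
          simp only [List.cons_append, List.cons.injEq] at h8
          rcases List.append_eq_append_iff.1 h8.2 with ⟨K, h9, h10⟩ | ⟨K, h9, h10⟩
          · exact hback K M₂ h10 h5
          · cases K with
            | nil =>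
              simp only [List.nil_append] at h10
              exact hback [] M₂ (by simpa using h10.symm) h5
            | cons y K =>
              simp only [List.cons_append, List.cons.injEq] at h10
              obtain ⟨rfl, h11⟩ := h10
              -- L'' = N ++ ivl s :: K, M₂ = K ++ L'
              have h12 : ∀ r ∈ K, adj s.1 r.1 := fun r hr => h5 r (by rw [h11]; simp [hr])
              have h13 : ∀ r ∈ L', adj s.1 r.1 := fun r hr => h5 r (by rw [h11]; simp [hr])
              have h14 : (ltr adj s)⁻¹ * pr adj L * ltr adj s = pr adj (L' ++ (N ++ K)) := by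
                rw [hLs, h9]
                simp only [pr_append, pr_cons, ltr_ivl]
                have e1 := ltr_comm_lkS (s := s) (pr_mem_lkS h12)
                have e2 := ltr_comm_lkS (s := s) (pr_mem_lkS h13)
                calc (ltr adj s)⁻¹ * (pr adj L' * (ltr adj s * (pr adj N * ((ltr adj s)⁻¹ * pr adj K)))) * ltr adj s
                    = (ltr adj s)⁻¹ * (pr adj L' * ltr adj s) * (pr adj N * ((ltr adj s)⁻¹ * (pr adj K * ltr adj s))) := by
                      group
                  _ = pr adj L' * (pr adj N * pr adj K) := by
                      rw [← e1, ← e2]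
                      group
              have h15 := hc s
              rw [h14] at h15
              have h16 := len_pr_le hg (L' ++ (N ++ K))
              unfold Red at hL
              rw [hL] at h15
              have h17 := congrArg List.length hLs
              rw [h9] at h17
              simp only [List.length_append, List.length_cons] at h15 h16 h17
              omega
      · cases N with
        | nil =>
          simp only [List.nil_append, List.cons.injEq] at h8
          exact ivl_ne s h8.1
        | cons x N =>
          simp only [List.cons_append, List.cons.injEq] at h8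
          have h9 : s ∈ M₂ := by rw [h8.2]; simp
          exact hg.irr _ (h5 s h9)

/-- **right-angled Artin groups are torsion-free** -/
theorem torsion_free (hg : IsG adj) (a : Raag adj) (n : ℕ) (hn : 0 < n) (h : a ^ n = 1) : a = 1 := by
  classical
  by_contra ha
  -- a conjugate of minimal length
  have hex : ∃ m, ∃ g : Raag adj, len hg (g⁻¹ * a * g) = m := ⟨_, 1, rfl⟩
  obtain ⟨g, hg1⟩ := Nat.find_spec hex
  have hmin : ∀ g' : Raag adj, len hg (g⁻¹ * a * g) ≤ len hg (g'⁻¹ * a * g') := by
    intro g'
    rw [hg1]
    exact Nat.find_min' hex ⟨g', rfl⟩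
  obtain ⟨L, hL, hLa⟩ := exists_red hg (g⁻¹ * a * g)
  have h1 := red_lp hg hL (by
    intro s
    rw [hLa]
    have h2 := hmin (g * ltr adj s)
    convert h2 using 2
    group) n [] L (by simp)
  rw [List.append_nil] at h1
  unfold Red at h1
  rw [pr_lp, hLa, length_lp] at h1
  have h2 : (g⁻¹ * a * g) ^ n = 1 := by
    have h3 : g⁻¹ * a * g = g⁻¹ * a * g⁻¹⁻¹ := by group
    rw [h3, conj_pow, h]
    group
  rw [h2, len_one] at h1
  have h3 : L.length = 0 := by
    rcases Nat.mul_eq_zero.1 h1.symm with h4 | h4
    · omega
    · exact h4
  rw [List.length_eq_zero_iff] at h3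
  rw [h3, pr_nil] at hLa
  apply ha
  calc a = g * (g⁻¹ * a * g) * g⁻¹ := by group
    _ = 1 := by rw [← hLa]; group

end

end Pool.Agent.H3.RA
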