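import Pool.Agent.H3.RA.Defs

/-!
# [H3 RA] right-angled Artin groups: values of the cocycle, reduced words, exchange, descents
-/

namespace Pool.Agent.H3.RA

noncomputable section

variable {V : Type} {adj : V → V → Prop}

/-- the inverse letter is the inverse -/
theorem ltr_ivl (s : V × Bool) : ltr adj (ivl s) = (ltr adj s)⁻¹ := by
  unfold ltr ivl
  rcases s with ⟨v, b⟩
  cases b <;> simp

theorem ltr_mul_ivl (a : Raag adj) (s : V × Bool) : a * ltr adj s * ltr adj (ivl s) = a := by
  rw [ltr_ivl, mul_inv_cancel_right]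

/-- elements of `subA U` have no component of a type outside `U` -/
theorem Dc_subA (hg : IsG adj) {U : Set V} {x : Raag adj} (hx : x ∈ subA adj U) {h : Hyp adj} (hh : h.1 ∉ U) :
    Dc hg x h = 0 := by
  classical
  unfold subA at hx
  induction hx using Subgroup.closure_induction generalizing h with
  | mem x hx =>
    obtain ⟨u, hu, rfl⟩ := hx
    rw [Dc_gen, Finsupp.single_apply, if_neg]
    rintro rfl
    exact hh hu
  | one => rw [Dc_one]; rfl
  | mul x y _ _ hx hy =>
    rw [Dc_mul, Finsupp.add_apply, hx hh, zero_add, ract_apply]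
    exact hy hh
  | inv x _ hx =>
    rw [Dc_inv, Finsupp.neg_apply, ract_apply, neg_eq_zero]
    exact hx hh

/-- `Dc` is constant on the cosets of the link subgroup in the components of this type -/
theorem Dc_coset (hg : IsG adj) {v : V} {a b : Raag adj} (hab : a⁻¹ * b ∈ lkS adj v) {h : Hyp adj} (hh : h.1 = v) :
    Dc hg b h = Dc hg a h := by
  have h1 : b = a * (a⁻¹ * b) := by group
  rw [h1, Dc_mul, Finsupp.add_apply, ract_apply, Dc_subA hg hab, add_zero]
  exact fun h2 => hg.irr v (by rw [← hh] at h2 ⊢; exact h2)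

/-- the values at the base hyperplane are `0` and `1` -/
theorem Dc_base (hg : IsG adj) (v : V) (a : Raag adj) :
    Dc hg a ⟨v, ((1 : Raag adj) : Raag adj ⧸ lkS adj v)⟩ = 0 ∨
      Dc hg a ⟨v, ((1 : Raag adj) : Raag adj ⧸ lkS adj v)⟩ = 1 := by
  classical
  have hv0 : ∀ x ∈ lkS adj v, Dc hg x ⟨v, ((1 : Raag adj) : Raag adj ⧸ lkS adj v)⟩ = 0 := fun x hx =>
    Dc_subA hg hx (hg.irr v)
  have hv1 : ∀ x ∈ lkS adj v, Dc hg (x * gen adj v) ⟨v, ((1 : Raag adj) : Raag adj ⧸ lkS adj v)⟩ = 1 := by
    intro x hx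
    have h1 := Dc_ltr hg x (v, true)
    rw [show ltr adj (v, true) = gen adj v from rfl] at h1
    have h2 : hyp x (v, true) = ⟨v, ((1 : Raag adj) : Raag adj ⧸ lkS adj v)⟩ := by
      unfold hyp bas
      simp only [if_true]
      congr 1
      rw [QuotientGroup.eq, mul_one]
      exact inv_mem hx
    rw [h1, Finsupp.add_apply, hv0 x hx, h2, Finsupp.single_eq_same, zero_add]
    rfl
  induction a using ind_right with
  | h1 => rw [Dc_one]; exact Or.inl rfl
  | h2 a s ih =>
    by_cases hs : hyp a s = ⟨v, ((1 : Raag adj) : Raag adj ⧸ lkS adj v)⟩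
    · obtain ⟨w, b⟩ := s
      have hw : w = v := congrArg Sigma.fst hs
      subst hw
      have h3 : ((bas a (w, b) : Raag adj) : Raag adj ⧸ lkS adj w) = ((1 : Raag adj) : Raag adj ⧸ lkS adj w) := by
        have := hs
        unfold hyp at this
        exact eq_of_heq (Sigma.mk.inj this).2
      rw [QuotientGroup.eq, mul_one] at h3
      have h4 : bas a (w, b) ∈ lkS adj w := by simpa using inv_mem h3
      cases b
      · left
        exact hv0 _ h4
      · right
        exact hv1 _ h4
    · rw [Dc_ltr, Finsupp.add_apply, Finsupp.single_apply, if_neg hs, add_zero]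
      exact ih

/-- the values at any hyperplane -/
theorem Dc_two (hg : IsG adj) (h : Hyp adj) :
    ∃ c : ℤ, (c = 0 ∨ c = -1) ∧ ∀ a, Dc hg a h = c ∨ Dc hg a h = c + 1 := by
  obtain ⟨v, q⟩ := h
  obtain ⟨g, rfl⟩ := QuotientGroup.mk_surjective q
  have key : ∀ a, Dc hg a ⟨v, (g : Raag adj ⧸ lkS adj v)⟩ = Dc hg g ⟨v, (g : Raag adj ⧸ lkS adj v)⟩ ∨
      Dc hg a ⟨v, (g : Raag adj ⧸ lkS adj v)⟩ = Dc hg g ⟨v, (g : Raag adj ⧸ lkS adj v)⟩ + 1 := by
    intro a
    have h1 : a = g * (g⁻¹ * a) := by group
    have h2 : hact adj g⁻¹ ⟨v, (g : Raag adj ⧸ lkS adj v)⟩ = ⟨v, ((1 : Raag adj) : Raag adj ⧸ lkS adj v)⟩ := by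
      unfold hact
      congr 1
      rw [MulAction.Quotient.smul_coe, smul_eq_mul, inv_mul_cancel]
    have h3 : Dc hg a ⟨v, (g : Raag adj ⧸ lkS adj v)⟩ = Dc hg g ⟨v, (g : Raag adj ⧸ lkS adj v)⟩ +
        Dc hg (g⁻¹ * a) ⟨v, ((1 : Raag adj) : Raag adj ⧸ lkS adj v)⟩ := by
      conv_lhs => rw [h1]
      rw [Dc_mul, Finsupp.add_apply, ract_apply, h2]
    rcases Dc_base hg v (g⁻¹ * a) with h4 | h4
    · left; rw [h3, h4, add_zero]
    · right; rw [h3, h4]
  refine ⟨_, ?_, key⟩
  rcases key 1 with h1 | h1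
  · left
    rw [← h1, Dc_one]; rfl
  · right
    rw [Dc_one] at h1
    change (0 : ℤ) = _ at h1
    linarith

/-- for each edge `a — a s`: either `a` is on the side of `1` and `a s` is not, or conversely -/
theorem edge_cases (hg : IsG adj) (a : Raag adj) (s : V × Bool) :
    (Dc hg a (hyp a s) = 0 ∧ Dc hg (a * ltr adj s) (hyp a s) = sg s) ∨
      (Dc hg a (hyp a s) = -sg s ∧ Dc hg (a * ltr adj s) (hyp a s) = 0) := by
  obtain ⟨c, hc, h⟩ := Dc_two hg (hyp a s)
  have h1 := h a
  have h2 := h (a * ltr adj s)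
  rw [Dc_ltr, Finsupp.add_apply, Finsupp.single_eq_same] at h2 ⊢
  have h3 : sg s = 1 ∨ sg s = -1 := by
    unfold sg
    split_ifs
    · exact Or.inl rfl
    · exact Or.inr rfl
  rcases h3 with h3 | h3 <;> rw [h3] at h2 ⊢ <;> omega

theorem Dc_ltr_of_ne (hg : IsG adj) (a : Raag adj) (s : V × Bool) {h : Hyp adj} (hh : hyp a s ≠ h) :
    Dc hg (a * ltr adj s) h = Dc hg a h := by
  classical
  rw [Dc_ltr, Finsupp.add_apply, Finsupp.single_apply, if_neg hh, add_zero]

theorem sg_ne (s : V × Bool) : sg s ≠ 0 := by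
  unfold sg
  split_ifs <;> norm_num

/-- the length goes up -/
theorem len_up (hg : IsG adj) {a : Raag adj} {s : V × Bool} (h : Dc hg a (hyp a s) = 0) :
    len hg (a * ltr adj s) = len hg a + 1 := by
  classical
  unfold len
  have h1 : (Dc hg (a * ltr adj s)).support = insert (hyp a s) (Dc hg a).support := by
    ext k
    rw [Finset.mem_insert, Finsupp.mem_support_iff, Finsupp.mem_support_iff]
    by_cases hk : hyp a s = k
    · subst hk
      rcases edge_cases hg a s with h2 | h2
      · rw [h2.2]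
        exact ⟨fun _ => Or.inl rfl, fun _ => sg_ne s⟩
      · exfalso
        rw [h] at h2
        exact sg_ne s (by linarith [h2.1])
    · rw [Dc_ltr_of_ne hg a s hk]
      exact ⟨Or.inr, fun h3 => h3.resolve_left fun h4 => hk h4.symm⟩
  rw [h1, Finset.card_insert_of_notMem]
  rw [Finsupp.mem_support_iff, not_not]
  exact h

/-- the length goes down -/
theorem len_down (hg : IsG adj) {a : Raag adj} {s : V × Bool} (h : Dc hg a (hyp a s) ≠ 0) :
    len hg a = len hg (a * ltr adj s) + 1 := by
  classical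
  unfold len
  have h1 : (Dc hg a).support = insert (hyp a s) (Dc hg (a * ltr adj s)).support := by
    ext k
    rw [Finset.mem_insert, Finsupp.mem_support_iff, Finsupp.mem_support_iff]
    by_cases hk : hyp a s = k
    · subst hk
      exact ⟨fun _ => Or.inl rfl, fun _ => h⟩
    · rw [Dc_ltr_of_ne hg a s hk]
      exact ⟨Or.inr, fun h3 => h3.resolve_left fun h4 => hk h4.symm⟩
  rw [h1, Finset.card_insert_of_notMem]
  rw [Finsupp.mem_support_iff, not_not]
  rcases edge_cases hg a s with h2 | h2
  · exact absurd h2.1 h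
  · exact h2.2

theorem len_one (hg : IsG adj) : len hg 1 = 0 := by
  unfold len
  rw [Dc_one]
  rfl

theorem len_mul_le (hg : IsG adj) (a b : Raag adj) : len hg (a * b) ≤ len hg a + len hg b := by
  classical
  unfold len
  rw [Dc_mul]
  refine (Finset.card_le_card Finsupp.support_add).trans ((Finset.card_union_le _ _).trans ?_)
  refine Nat.add_le_add_left ?_ _
  refine (Finset.card_le_card Finsupp.mapDomain_support).trans Finset.card_image_le

theorem pr_append (L M : List (V × Bool)) : pr adj (L ++ M) = pr adj L * pr adj M := by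
  unfold pr
  rw [List.map_append, List.prod_append]

theorem pr_snoc (L : List (V × Bool)) (s : V × Bool) : pr adj (L ++ [s]) = pr adj L * ltr adj s := by
  rw [pr_append]
  congr 1
  simp [pr]

theorem pr_nil : pr adj [] = 1 := rfl

theorem len_ltr_le (hg : IsG adj) (a : Raag adj) (s : V × Bool) : len hg (a * ltr adj s) ≤ len hg a + 1 := by
  by_cases h : Dc hg a (hyp a s) = 0
  · exact (len_up hg h).le
  · have := len_down hg h
    omega

theorem len_pr_le (hg : IsG adj) (L : List (V × Bool)) : len hg (pr adj L) ≤ L.length := by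
  induction L using List.reverseRecOn with
  | nil => rw [pr_nil, len_one]; exact Nat.zero_le _
  | append_singleton L s ih =>
    rw [pr_snoc, List.length_append]
    have := len_ltr_le hg (pr adj L) s
    simp only [List.length_singleton]
    omega

/-- reduced words -/
def Red (hg : IsG adj) (L : List (V × Bool)) : Prop := len hg (pr adj L) = L.length

theorem Red.left {hg : IsG adj} {L M : List (V × Bool)} (h : Red hg (L ++ M)) : Red hg L := by
  unfold Red at h ⊢
  rw [pr_append, List.length_append] at h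
  have h1 := len_mul_le hg (pr adj L) (pr adj M)
  have h2 := len_pr_le hg L
  have h3 := len_pr_le hg M
  omega

theorem Red.right {hg : IsG adj} {L M : List (V × Bool)} (h : Red hg (L ++ M)) : Red hg M := by
  unfold Red at h ⊢
  rw [pr_append, List.length_append] at h
  have h1 := len_mul_le hg (pr adj L) (pr adj M)
  have h2 := len_pr_le hg L
  have h3 := len_pr_le hg M
  omega

theorem Red.snoc {hg : IsG adj} {L : List (V × Bool)} {s : V × Bool} (h : Red hg (L ++ [s])) :
    Dc hg (pr adj L) (hyp (pr adj L) s) = 0 := by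
  by_contra h1
  have h2 := len_down hg h1
  have h3 := h
  unfold Red at h3
  rw [pr_snoc, List.length_append, List.length_singleton] at h3
  have h4 := len_pr_le hg L
  omega

/-- a hyperplane with nonzero value is crossed by a reduced word, in the direction of the value -/
theorem Red.cross {hg : IsG adj} {L : List (V × Bool)} (h : Red hg L) {k : Hyp adj} (hk : Dc hg (pr adj L) k ≠ 0) :
    ∃ L₁ s L₂, L = L₁ ++ s :: L₂ ∧ hyp (pr adj L₁) s = k ∧ Dc hg (pr adj L) k = sg s := by
  induction L using List.reverseRecOn with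
  | nil =>
    rw [pr_nil, Dc_one] at hk
    exact absurd rfl hk
  | append_singleton L s ih =>
    by_cases h1 : hyp (pr adj L) s = k
    · refine ⟨L, s, [], rfl, h1, ?_⟩
      rw [pr_snoc]
      subst h1
      rcases edge_cases hg (pr adj L) s with h2 | h2
      · exact h2.2
      · rw [h.snoc] at h2
        exact absurd (by linarith [h2.1]) (sg_ne s)
    · rw [pr_snoc, Dc_ltr_of_ne hg _ s h1] at hk
      obtain ⟨L₁, s₁, L₂, h2, h3, h4⟩ := ih h.left hk
      refine ⟨L₁, s₁, L₂ ++ [s], ?_, h3, ?_⟩
      · rw [h2]; simp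
      · rw [pr_snoc, Dc_ltr_of_ne hg _ s h1, h4]

/-- a crossing of a reduced word is never undone -/
theorem Red.cross' {hg : IsG adj} {L₁ : List (V × Bool)} {s : V × Bool} {L₂ : List (V × Bool)}
    (h : Red hg (L₁ ++ s :: L₂)) : Dc hg (pr adj (L₁ ++ s :: L₂)) (hyp (pr adj L₁) s) = sg s := by
  induction L₂ using List.reverseRecOn with
  | nil =>
    rw [pr_snoc]
    rcases edge_cases hg (pr adj L₁) s with h2 | h2
    · exact h2.2
    · have h3 : Red hg (L₁ ++ [s]) := h
      rw [h3.snoc] at h2
      exact absurd (by linarith [h2.1]) (sg_ne s)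
  | append_singleton L r ih =>
    have h1 : L₁ ++ s :: (L ++ [r]) = (L₁ ++ s :: L) ++ [r] := by simp
    rw [h1] at h ⊢
    have h2 := ih h.left
    have h3 := h.snoc
    rw [pr_snoc]
    by_cases h4 : hyp (pr adj (L₁ ++ s :: L)) r = hyp (pr adj L₁) s
    · rw [h4, h2] at h3
      exact absurd h3 (sg_ne s)
    · rw [Dc_ltr_of_ne hg _ r h4, h2]

/-- the letters of a reduced word of an element of `subA U` are in `U` -/
theorem Red.mem {hg : IsG adj} {L : List (V × Bool)} (h : Red hg L) {U : Set V} (hU : pr adj L ∈ subA adj U) :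
    ∀ s ∈ L, s.1 ∈ U := by
  intro s hs
  obtain ⟨L₁, L₂, rfl⟩ := List.append_of_mem hs
  by_contra h1
  have h2 := h.cross'
  rw [Dc_subA hg hU (h := hyp (pr adj L₁) s) h1] at h2
  exact sg_ne s h2.symm

theorem comm_lkS {v : V} {y : Raag adj} (hy : y ∈ lkS adj v) : gen adj v * y = y * gen adj v := by
  unfold lkS subA at hy
  induction hy using Subgroup.closure_induction with
  | mem x hx =>
    obtain ⟨w, hw, rfl⟩ := hx
    exact gen_comm hw
  | one => rw [mul_one, one_mul]
  | mul x y _ _ hx hy => rw [← mul_assoc, hx, mul_assoc, hy, mul_assoc]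
  | inv x _ hx => rw [mul_inv_eq_iff_eq_mul, mul_assoc, hx, inv_mul_cancel_left]

theorem ltr_comm_lkS {s : V × Bool} {y : Raag adj} (hy : y ∈ lkS adj s.1) : ltr adj s * y = y * ltr adj s := by
  unfold ltr
  split_ifs
  · exact comm_lkS hy
  · rw [inv_mul_eq_iff_eq_mul, ← mul_assoc, comm_lkS hy, mul_inv_cancel_right]

/-- **exchange** -/
theorem Red.exch {hg : IsG adj} {L : List (V × Bool)} (h : Red hg L) {s : V × Bool}
    (hs : Dc hg (pr adj L) (hyp (pr adj L) s) ≠ 0) :
    ∃ L₁ L₂, L = L₁ ++ ivl s :: L₂ ∧ (∀ r ∈ L₂, adj s.1 r.1) ∧ pr adj L * ltr adj s = pr adj (L₁ ++ L₂) := by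
  obtain ⟨L₁, r, L₂, h1, h2, h3⟩ := h.cross hs
  have h4 : Dc hg (pr adj L) (hyp (pr adj L) s) = - sg s := by
    rcases edge_cases hg (pr adj L) s with h5 | h5
    · exact absurd h5.1 hs
    · exact h5.1
  have h5 : sg r = - sg s := by rw [← h3, h4]
  have h6 : r.1 = s.1 := congrArg Sigma.fst h2
  have h7 : r = ivl s := by
    obtain ⟨v, b⟩ := r
    obtain ⟨w, c⟩ := s
    unfold sg at h5
    unfold ivl
    simp only at h5 h6 ⊢
    cases b <;> cases c <;> simp_all
  subst h7
  have h11 : pr adj L = pr adj L₁ * ltr adj (ivl s) * pr adj L₂ := by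
    rw [h1, pr_append, mul_assoc]
    rfl
  have h8 : pr adj L₂ ∈ lkS adj s.1 := by
    have h9 : (bas (pr adj L₁) (ivl s))⁻¹ * bas (pr adj L) s ∈ lkS adj s.1 := by
      have h10 := h2
      unfold hyp at h10
      exact QuotientGroup.eq.1 (eq_of_heq (Sigma.mk.inj h10).2)
    rw [h11] at h9
    obtain ⟨w, c⟩ := s
    cases c
    · simp only [bas, ivl, ltr, Bool.not_false, if_true, Bool.false_eq_true, if_false] at h9
      have h12 : gen adj w * pr adj L₂ * (gen adj w)⁻¹ ∈ lkS adj w := by
        convert h9 using 1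
        group
      have h13 := comm_lkS h12
      have h14 : pr adj L₂ = gen adj w * pr adj L₂ * (gen adj w)⁻¹ := by
        have h15 : gen adj w * (gen adj w * pr adj L₂ * (gen adj w)⁻¹) = gen adj w * pr adj L₂ := by
          rw [h13]
          group
        exact (mul_left_cancel h15).symm
      rw [h14]
      exact h12
    · simp only [bas, ivl, ltr, Bool.not_true, if_true, Bool.false_eq_true, if_false] at h9
      convert h9 using 1
      group
  have h12 : Red hg L₂ := by
    have : L = (L₁ ++ [ivl s]) ++ L₂ := by rw [h1]; simp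
    rw [this] at h
    exact h.right
  refine ⟨L₁, L₂, h1, fun r hr => h12.mem h8 r hr, ?_⟩
  rw [h11, mul_assoc, ← ltr_comm_lkS h8, pr_append, mul_assoc, ← mul_assoc (ltr adj (ivl s)), ltr_ivl,
    inv_mul_cancel, one_mul]

/-- each element has a reduced word -/
theorem exists_red (hg : IsG adj) (a : Raag adj) : ∃ L, Red hg L ∧ pr adj L = a := by
  induction a using ind_right with
  | h1 => exact ⟨[], by unfold Red; rw [pr_nil, len_one]; rfl, pr_nil⟩
  | h2 a s ih =>
    obtain ⟨L, hL, rfl⟩ := ih
    by_cases h : Dc hg (pr adj L) (hyp (pr adj L) s) = 0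
    · refine ⟨L ++ [s], ?_, pr_snoc L s⟩
      unfold Red at hL ⊢
      rw [pr_snoc, len_up hg h, hL, List.length_append, List.length_singleton]
    · obtain ⟨L₁, L₂, h1, -, h2⟩ := hL.exch h
      refine ⟨L₁ ++ L₂, ?_, h2.symm⟩
      have h3 := len_down hg h
      unfold Red at hL ⊢
      rw [← h2]
      rw [hL, h1] at h3
      simp only [List.length_append, List.length_cons] at h3 ⊢
      rw [← h1] at h3
      omega

theorem len_eq_zero (hg : IsG adj) {a : Raag adj} : len hg a = 0 ↔ a = 1 := by
  constructor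
  · intro h
    obtain ⟨L, hL, rfl⟩ := exists_red hg a
    unfold Red at hL
    rw [h] at hL
    rw [List.length_eq_zero_iff.1 hL.symm, pr_nil]
  · rintro rfl
    exact len_one hg

/-- `s` is a descent of `a` -/
def Desc (hg : IsG adj) (a : Raag adj) (s : V × Bool) : Prop := Dc hg a (hyp a s) ≠ 0

theorem exists_desc (hg : IsG adj) {a : Raag adj} (ha : a ≠ 1) : ∃ s, Desc hg a s := by
  obtain ⟨L, hL, rfl⟩ := exists_red hg a
  rcases L.eq_nil_or_concat with rfl | ⟨L', s, rfl⟩
  · exact absurd pr_nil ha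
  · refine ⟨ivl s, fun h => ?_⟩
    rw [List.concat_eq_append] at *
    have h1 := len_up hg h
    rw [pr_snoc, ltr_mul_ivl] at h1
    have h2 : len hg (pr adj L') = L'.length := hL.left
    unfold Red at hL
    rw [pr_snoc, List.length_append, List.length_singleton] at hL
    omega

/-- distinct descents are adjacent -/
theorem desc_adj (hg : IsG adj) {a : Raag adj} {s r : V × Bool} (hs : Desc hg a s) (hr : Desc hg a r)
    (hsr : s ≠ r) : adj s.1 r.1 := by
  obtain ⟨L, hL, rfl⟩ := exists_red hg a
  obtain ⟨L₁, L₂, h1, h2, -⟩ := hL.exch hs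
  obtain ⟨M₁, M₂, h3, h4, -⟩ := hL.exch hr
  rw [h1] at h3
  rcases List.append_eq_append_iff.1 h3 with ⟨N, h5, h6⟩ | ⟨N, h5, h6⟩
  · -- M₁ = L₁ ++ N, ivl s :: L₂ = N ++ ivl r :: M₂
    cases N with
    | nil =>
      simp only [List.nil_append, List.cons.injEq] at h6
      exfalso
      apply hsr
      obtain ⟨v, b⟩ := s
      obtain ⟨w, c⟩ := r
      have := h6.1
      unfold ivl at this
      simpa using this
    | cons x N =>
      simp only [List.cons_append, List.cons.injEq] at h6
      have h7 : ivl r ∈ L₂ := by rw [h6.2]; simp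
      exact h2 (ivl r) h7
  · cases N with
    | nil =>
      simp only [List.nil_append, List.cons.injEq] at h6
      exfalso
      apply hsr
      obtain ⟨v, b⟩ := s
      obtain ⟨w, c⟩ := r
      have := h6.1
      unfold ivl at this
      simpa using this.symm
    | cons x N =>
      simp only [List.cons_append, List.cons.injEq] at h6
      have h7 : ivl s ∈ M₂ := by rw [h6.2]; simp
      exact hg.symm _ _ (h4 (ivl s) h7)

end

end Pool.Agent.H3.RA
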