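import Pool.Agent.H3.RA.Fs
import Pool.Agent.H3.RA.Bb

/-!
# [H3 RA] the precubical set `Z` of a tower is acyclic

Projection `prZ` of the chains of `Z` to the chains of the cube complex of the right-angled Artin group (forget the level,
kill the cubes with `⊤`).
-/

namespace Pool.Agent.H3.RA

open Pool.Agent.H59.FS
open scoped Classical

noncomputable section

section
variable {V : Type} [PartialOrder V]

/-- the set of a chain without `⊤` -/
def fsW {n : ℕ} (s : Chn (WithTop V) n) : Finset V := if h : HasT s then ∅ else fs (Classical.choose (exists_up h))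

theorem fsW_up {n : ℕ} (s : Chn V n) : fsW (up s) = fs s := by
  unfold fsW
  rw [dif_neg (not_hasT_up s)]
  congr 1
  exact (up_injective (Classical.choose_spec (exists_up (not_hasT_up s)))).symm

end

variable {P : Type} [Group P] [Fintype P] {r : ℕ} {e : Fin r → Fin r → P → ℤ} {T : Tower P r e}
  {k : Type} [CommRing k]

/-- a cube in a level -/
def c0 (T : Tower P r e) {n : ℕ} (a : RA T.V) (l : ℤ) (s : Chn T.V n) (h : ∀ i, s.1 i ∈ T.M l) : (Zed T).cub n :=
  show {c : (RA T.V × ℤ) × Chn (WithTop T.V) n // Alw T.M c.1.2 c.2} from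
  ⟨((a, l), up s), by
    intro i v hv
    have h1 : s.1 i = v := WithTop.coe_injective hv
    refine ⟨h1 ▸ h i, ?_⟩
    rintro ⟨j, hj⟩
    exact absurd hj WithTop.coe_ne_top⟩

/-- a cube between two levels -/
def c1 (T : Tower P r e) {n : ℕ} (a : RA T.V) (l : ℤ) (s : Chn T.V n)
    (h : ∀ i, s.1 i ∈ T.M l ∧ s.1 i ∈ T.M (l + 1)) : (Zed T).cub (n + 1) :=
  show {c : (RA T.V × ℤ) × Chn (WithTop T.V) (n + 1) // Alw T.M c.1.2 c.2} from
  ⟨((a, l), upT s), by
    intro i v hv
    induction i using Fin.lastCases with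
    | last =>
      rw [upT_last] at hv
      exact absurd hv WithTop.top_ne_coe
    | cast i =>
      rw [upT_cast] at hv
      have h1 : s.1 i = v := WithTop.coe_injective hv
      subst h1
      exact ⟨(h i).1, fun _ => (h i).2⟩⟩

/-- the cube contains the direction `⊤` -/
def HT {n : ℕ} (c : (Zed T).cub n) : Prop :=
  HasT (show {c : (RA T.V × ℤ) × Chn (WithTop T.V) n // Alw T.M c.1.2 c.2} from c).1.2

theorem not_HT_c0 {n : ℕ} (a : RA T.V) (l : ℤ) (s : Chn T.V n) (h : ∀ i, s.1 i ∈ T.M l) : ¬ HT (c0 T a l s h) :=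
  not_hasT_up s

theorem HT_c1 {n : ℕ} (a : RA T.V) (l : ℤ) (s : Chn T.V n) (h : ∀ i, s.1 i ∈ T.M l ∧ s.1 i ∈ T.M (l + 1)) :
    HT (c1 T a l s h) := hasT_upT s

theorem exists_c0 {n : ℕ} {c : (Zed T).cub n} (h : ¬ HT c) : ∃ a l s hs, c = c0 T a l s hs := by
  obtain ⟨⟨⟨a, l⟩, s⟩, hc⟩ := c
  obtain ⟨s', rfl⟩ := exists_up h
  exact ⟨a, l, s', fun i => (hc i (s'.1 i) rfl).1, rfl⟩

theorem exists_c1 {n : ℕ} {c : (Zed T).cub (n + 1)} (h : HT c) : ∃ a l s hs, c = c1 T a l s hs := by
  obtain ⟨⟨⟨a, l⟩, s⟩, hc⟩ := c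
  obtain ⟨s', rfl⟩ := exists_upT h
  refine ⟨a, l, s', fun i => ?_, rfl⟩
  have h1 := hc i.castSucc (s'.1 i) (upT_cast s' i)
  exact ⟨h1.1, h1.2 (hasT_upT s')⟩

theorem not_HT_zero (c : (Zed T).cub 0) : ¬ HT c := fun ⟨j, _⟩ => j.elim0

theorem fa_c0_false {n : ℕ} (i : Fin (n + 1)) (a : RA T.V) (l : ℤ) (s : Chn T.V (n + 1)) (h : ∀ i, s.1 i ∈ T.M l) :
    (Zed T).fa n i false (c0 T a l s h) = c0 T a l (s.del i) (fun _ => h _) := rfl

theorem fa_c0_true {n : ℕ} (i : Fin (n + 1)) (a : RA T.V) (l : ℤ) (s : Chn T.V (n + 1)) (h : ∀ i, s.1 i ∈ T.M l) :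
    (Zed T).fa n i true (c0 T a l s h) = c0 T (a * gn (s.1 i)) l (s.del i) (fun _ => h _) := rfl

theorem fa_c1_last_false {n : ℕ} (a : RA T.V) (l : ℤ) (s : Chn T.V n)
    (h : ∀ i, s.1 i ∈ T.M l ∧ s.1 i ∈ T.M (l + 1)) :
    (Zed T).fa n (Fin.last n) false (c1 T a l s h) = c0 T a l s (fun i => (h i).1) := by
  apply Subtype.ext
  change ((a, l), (upT s).del (Fin.last n)) = ((a, l), up s)
  rw [upT_del_last]

theorem fa_c1_last_true {n : ℕ} (a : RA T.V) (l : ℤ) (s : Chn T.V n)
    (h : ∀ i, s.1 i ∈ T.M l ∧ s.1 i ∈ T.M (l + 1)) :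
    (Zed T).fa n (Fin.last n) true (c1 T a l s h) = c0 T a (l + 1) s (fun i => (h i).2) := by
  apply Subtype.ext
  change (stp (a, l) ((upT s).1 (Fin.last n)), (upT s).del (Fin.last n)) = ((a, l + 1), up s)
  rw [upT_del_last, upT_last]
  rfl

theorem HT_fa {n : ℕ} {c : (Zed T).cub (n + 1)} (h : HT c) {i : Fin (n + 1)} (hi : i ≠ Fin.last n) (b : Bool) :
    HT ((Zed T).fa n i b c) := by
  cases b <;> exact hasT_del h hi

theorem not_HT_fa {n : ℕ} {c : (Zed T).cub (n + 1)} (h : ¬ HT c) (i : Fin (n + 1)) (b : Bool) :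
    ¬ HT ((Zed T).fa n i b c) := by
  cases b <;> exact not_hasT_del h i

/-! ## the projection -/

variable (T k) in
/-- forget the level, kill the cubes with `⊤` -/
def prZ (n : ℕ) : ((Zed T).cub n →₀ k) →ₗ[k] CC k (adjP T.V) n :=
  Finsupp.linearCombination k fun c => if HT c then 0 else
    cell k n (show {c : (RA T.V × ℤ) × Chn (WithTop T.V) n // Alw T.M c.1.2 c.2} from c).1.1.1
      (fsW (show {c : (RA T.V × ℤ) × Chn (WithTop T.V) n // Alw T.M c.1.2 c.2} from c).1.2)

theorem prZ_HT {n : ℕ} {c : (Zed T).cub n} (h : HT c) (x : k) : prZ T k n (Finsupp.single c x) = 0 := by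
  unfold prZ
  rw [Finsupp.linearCombination_single, if_pos h, smul_zero]

theorem prZ_c0 {n : ℕ} (a : RA T.V) (l : ℤ) (s : Chn T.V n) (h : ∀ i, s.1 i ∈ T.M l) (x : k) :
    prZ T k n (Finsupp.single (c0 T a l s h) x) = x • cell k n a (fs s) := by
  unfold prZ
  rw [Finsupp.linearCombination_single, if_neg (not_HT_c0 a l s h)]
  change x • cell k n a (fsW (up s)) = _
  rw [fsW_up]

theorem bd_single {n : ℕ} (c : (Zed T).cub (n + 1)) : (Zed T).bd k n (Finsupp.single c 1) =
    ∑ i : Fin (n + 1), (-1 : k) ^ (i : ℕ) •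
      (Finsupp.single ((Zed T).fa n i true c) (1 : k) - Finsupp.single ((Zed T).fa n i false c) 1) := by
  unfold PreCub.bd
  rw [Finsupp.linearCombination_single, one_smul]

/-- the projection anticommutes with the boundaries -/
theorem prZ_bd {rk : T.V → ℕ} (hrk : StrictMono rk) {n : ℕ} (z : (Zed T).cub (n + 1) →₀ k) :
    prZ T k n ((Zed T).bd k n z) = - dA k (adjP T.V) rk n (prZ T k (n + 1) z) := by
  have key : prZ T k n ∘ₗ (Zed T).bd k n = - (dA k (adjP T.V) rk n ∘ₗ prZ T k (n + 1)) := by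
    refine Finsupp.lhom_ext' fun c => LinearMap.ext_ring ?_
    change prZ T k n ((Zed T).bd k n (Finsupp.single c 1)) =
      -dA k (adjP T.V) rk n (prZ T k (n + 1) (Finsupp.single c 1))
    rw [bd_single, map_sum]
    by_cases hc : HT c
    · rw [prZ_HT hc, map_zero, neg_zero]
      refine Finset.sum_eq_zero fun i _ => ?_
      rw [map_smul, map_sub]
      by_cases hi : i = Fin.last n
      · subst hi
        obtain ⟨a, l, s, hs, rfl⟩ := exists_c1 hc
        rw [fa_c1_last_false, fa_c1_last_true, prZ_c0, prZ_c0, sub_self, smul_zero]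
      · rw [prZ_HT (HT_fa hc hi true), prZ_HT (HT_fa hc hi false), sub_self, smul_zero]
    · obtain ⟨a, l, s, hs, rfl⟩ := exists_c0 hc
      rw [prZ_c0, one_smul, dA_cell (isC_fs a s)]
      have h1 : ∑ v ∈ fs s, sgn rk v (fs s) • (cell k n a ((fs s).erase v) -
          cell k n (a * gen (adjP T.V) v) ((fs s).erase v)) = ∑ i : Fin (n + 1), sgn rk (s.1 i) (fs s) •
          (cell k n a ((fs s).erase (s.1 i)) - cell k n (a * gen (adjP T.V) (s.1 i)) ((fs s).erase (s.1 i))) := by
        conv_lhs =>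
          enter [1]
          unfold fs
        rw [Finset.sum_map]
        rfl
      rw [h1, ← Finset.sum_neg_distrib]
      refine Finset.sum_congr rfl fun i _ => ?_
      rw [fa_c0_false, fa_c0_true, map_smul, map_sub, prZ_c0, prZ_c0, one_smul, one_smul, sgn_fs hrk, fs_del]
      have h2 : ((-1 : ℤ) ^ (i : ℕ)) • (cell k n a ((fs s).erase (s.1 i)) -
          cell k n (a * gen (adjP T.V) (s.1 i)) ((fs s).erase (s.1 i))) = ((-1 : k) ^ (i : ℕ)) •
          (cell k n a ((fs s).erase (s.1 i)) - cell k n (a * gen (adjP T.V) (s.1 i)) ((fs s).erase (s.1 i))) := by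
        rw [← Int.cast_smul_eq_zsmul k]
        push_cast
        rfl
      rw [h2, ← smul_neg, neg_sub]
      rfl
  exact congrArg (fun f => f z) key

/-! ## levels -/

/-- a chain is contained in some level -/
theorem exists_level {n : ℕ} (s : Chn T.V n) : ∃ l, ∀ i, s.1 i ∈ T.M l := by
  rcases n with _ | n
  · exact ⟨0, fun i => i.elim0⟩
  have h1 : ∀ i j : Fin (n + 1), ∃ l, s.1 i ∈ T.M l ∧ s.1 j ∈ T.M l := by
    intro i j
    rcases le_total i j with h | h
    · exact T.cov _ _ (s.2.monotone h)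
    · obtain ⟨l, h2, h3⟩ := T.cov _ _ (s.2.monotone h)
      exact ⟨l, h3, h2⟩
  choose L hL1 hL2 using h1
  have hne : (Finset.univ : Finset (Fin (n + 1))).Nonempty := Finset.univ_nonempty
  let x : ℤ := Finset.univ.sup' hne fun i => Finset.univ.inf' hne fun j => L i j
  refine ⟨x, fun m => ?_⟩
  -- an element of the `m`-th interval above `x`
  obtain ⟨i, _, hi⟩ := Finset.exists_mem_eq_sup' hne fun i => Finset.univ.inf' hne fun j => L i j
  have h2 : x ≤ L i m := by
    change (Finset.univ.sup' hne fun i => Finset.univ.inf' hne fun j => L i j) ≤ _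
    rw [hi]
    exact Finset.inf'_le (fun j => L i j) (Finset.mem_univ m)
  obtain ⟨j, _, hj⟩ := Finset.exists_mem_eq_inf' hne fun j => L m j
  have h3 : L m j ≤ x := by
    rw [← hj]
    exact Finset.le_sup' (fun i => Finset.univ.inf' hne fun j => L i j) (Finset.mem_univ m)
  exact T.conv _ _ _ _ h3 h2 (hL1 m j) (hL2 i m)

variable (T k) in
/-- the part without `⊤` -/
def Ap (n : ℕ) : ((Zed T).cub n →₀ k) →ₗ[k] ((Zed T).cub n →₀ k) :=
  Finsupp.linearCombination k fun c => if HT c then 0 else Finsupp.single c 1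

theorem Ap_HT {n : ℕ} {c : (Zed T).cub n} (h : HT c) (x : k) : Ap T k n (Finsupp.single c x) = 0 := by
  unfold Ap
  rw [Finsupp.linearCombination_single, if_pos h, smul_zero]

theorem Ap_not {n : ℕ} {c : (Zed T).cub n} (h : ¬ HT c) (x : k) :
    Ap T k n (Finsupp.single c x) = Finsupp.single c x := by
  unfold Ap
  rw [Finsupp.linearCombination_single, if_neg h, Finsupp.smul_single_one]

/-- the part without `⊤` of the boundary of a cube between two levels -/
theorem Ap_bd_c1 {n : ℕ} (a : RA T.V) (l : ℤ) (s : Chn T.V n) (h : ∀ i, s.1 i ∈ T.M l ∧ s.1 i ∈ T.M (l + 1)) :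
    Ap T k n ((Zed T).bd k n (Finsupp.single (c1 T a l s h) 1)) = (-1 : k) ^ n •
      (Finsupp.single (c0 T a (l + 1) s (fun i => (h i).2)) 1 - Finsupp.single (c0 T a l s (fun i => (h i).1)) 1) := by
  rw [bd_single, map_sum, Finset.sum_eq_single (Fin.last n)]
  · rw [map_smul, map_sub, fa_c1_last_false, fa_c1_last_true, Ap_not (not_HT_c0 _ _ _ _), Ap_not (not_HT_c0 _ _ _ _),
      Fin.val_last]
  · intro i _ hi
    rw [map_smul, map_sub, Ap_HT (HT_fa (HT_c1 a l s h) hi true), Ap_HT (HT_fa (HT_c1 a l s h) hi false), sub_self,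
      smul_zero]
  · intro h1
    exact absurd (Finset.mem_univ _) h1

/-- two levels of the same chain -/
theorem path {n : ℕ} (a : RA T.V) (s : Chn T.V n) (l : ℤ) (h : ∀ i, s.1 i ∈ T.M l) (m : ℕ) :
    ∀ h' : ∀ i, s.1 i ∈ T.M (l + m), ∃ y, Ap T k n ((Zed T).bd k n y) =
      Finsupp.single (c0 T a (l + m) s h') 1 - Finsupp.single (c0 T a l s h) 1 := by
  induction m with
  | zero =>
    intro h'
    refine ⟨0, ?_⟩
    rw [map_zero, map_zero]
    have h1 : l + ((0 : ℕ) : ℤ) = l := by simp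
    have h2 : c0 T a (l + ((0 : ℕ) : ℤ)) s h' = c0 T a l s h := by
      congr 1
    rw [h2, sub_self]
  | succ m ih =>
    intro h'
    have h1 : ∀ i, s.1 i ∈ T.M (l + m) := fun i =>
      T.conv (s.1 i) l (l + m) (l + (m + 1 : ℕ)) (by omega) (by push_cast; omega) (h i) (h' i)
    obtain ⟨y, hy⟩ := ih h1
    have h2 : l + ((m + 1 : ℕ) : ℤ) = l + m + 1 := by push_cast; ring
    have h3 : ∀ i, s.1 i ∈ T.M (l + m) ∧ s.1 i ∈ T.M (l + m + 1) := fun i => ⟨h1 i, by rw [← h2]; exact h' i⟩
    have h4 := Ap_bd_c1 (k := k) a (l + m) s h3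
    refine ⟨y + (-1 : k) ^ n • Finsupp.single (c1 T a (l + m) s h3) 1, ?_⟩
    rw [map_add, map_add, map_smul, map_smul, hy, h4, smul_smul, ← mul_pow, neg_one_mul, neg_neg, one_pow, one_smul]
    have h5 : c0 T a (l + ((m + 1 : ℕ) : ℤ)) s h' = c0 T a (l + m + 1) s (fun i => (h3 i).2) := by
      congr 1
    rw [h5]
    abel

/-- any two levels of the same chain -/
theorem path' {n : ℕ} (a : RA T.V) (s : Chn T.V n) (l l' : ℤ) (h : ∀ i, s.1 i ∈ T.M l) (h' : ∀ i, s.1 i ∈ T.M l') :
    ∃ y, Ap T k n ((Zed T).bd k n y) = Finsupp.single (c0 T a l s h) 1 - Finsupp.single (c0 T a l' s h') 1 := by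
  rcases le_total l' l with h1 | h1
  · obtain ⟨m, hm⟩ := Int.le.dest h1
    subst hm
    exact path a s l' h' m h
  · obtain ⟨m, hm⟩ := Int.le.dest h1
    subst hm
    obtain ⟨y, hy⟩ := path (k := k) a s l h m h'
    exact ⟨-y, by rw [map_neg, map_neg, hy, neg_sub]⟩

/-- a section -/
theorem exists_sec {rk : T.V → ℕ} (hrk : StrictMono rk) (n : ℕ) :
    ∃ S : CC k (adjP T.V) n →ₗ[k] ((Zed T).cub n →₀ k), (∀ x, prZ T k n (S x) = x) ∧
      ∀ z, ∃ y, Ap T k n z - Ap T k n ((Zed T).bd k n y) = S (prZ T k n z) := by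
  have h1 : ∀ q : Cq (adjP T.V) n, ∃ (s : Chn T.V n) (l : ℤ) (_ : ∀ i, s.1 i ∈ T.M l), fs s = q.1.2 := by
    intro q
    obtain ⟨s, hs⟩ := exists_chn hrk q.2.1 q.2.2
    obtain ⟨l, hl⟩ := exists_level s
    exact ⟨s, l, hl, hs⟩
  choose s l hl hs using h1
  refine ⟨Finsupp.linearCombination k fun q => Finsupp.single (c0 T q.1.1 (l q) (s q) (hl q)) 1, ?_, ?_⟩
  · intro x
    induction x using Finsupp.induction_linear with
    | zero => rw [map_zero, map_zero]
    | add f g hf hg => rw [map_add, map_add, hf, hg]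
    | single q x =>
      rw [Finsupp.linearCombination_single, map_smul, prZ_c0, one_smul, hs, cell_coe, Finsupp.smul_single_one]
  · intro z
    induction z using Finsupp.induction_linear with
    | zero => exact ⟨0, by simp⟩
    | add f g hf hg =>
      obtain ⟨y, hy⟩ := hf
      obtain ⟨y', hy'⟩ := hg
      refine ⟨y + y', ?_⟩
      rw [map_add, map_add, map_add, map_add, map_add, ← hy, ← hy']
      abel
    | single c x =>
      by_cases hc : HT c
      · exact ⟨0, by rw [Ap_HT hc, prZ_HT hc, map_zero, map_zero, map_zero, sub_zero]⟩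
      · obtain ⟨a, l', s', hs', rfl⟩ := exists_c0 hc
        have h2 : prZ T k n (Finsupp.single (c0 T a l' s' hs') x) =
            Finsupp.single (⟨(a, fs s'), isC_fs a s'⟩ : Cq (adjP T.V) n) x := by
          rw [prZ_c0]
          have h3 := cell_coe (R := k) (⟨(a, fs s'), isC_fs a s'⟩ : Cq (adjP T.V) n)
          rw [h3, Finsupp.smul_single_one]
        rw [h2, Finsupp.linearCombination_single, Ap_not (not_HT_c0 _ _ _ _)]
        set q : Cq (adjP T.V) n := ⟨(a, fs s'), isC_fs a s'⟩ with hq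
        have h4 : s q = s' := fs_inj hrk (hs q)
        have h5 : ∀ i, s'.1 i ∈ T.M (l q) := by
          rw [← h4]
          exact hl q
        have h6 : c0 T q.1.1 (l q) (s q) (hl q) = c0 T a (l q) s' h5 := by
          congr 1
        rw [h6]
        obtain ⟨y, hy⟩ := path' (k := k) a s' l' (l q) hs' h5
        refine ⟨x • y, ?_⟩
        rw [map_smul, map_smul, hy, smul_sub, Finsupp.smul_single_one, Finsupp.smul_single_one]
        abel

theorem Ap_apply {n : ℕ} (z : (Zed T).cub n →₀ k) (c : (Zed T).cub n) : Ap T k n z c = if HT c then 0 else z c := by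
  induction z using Finsupp.induction_linear with
  | zero => rw [map_zero]; simp
  | add f g hf hg =>
    rw [map_add, Finsupp.add_apply, hf, hg, Finsupp.add_apply]
    split_ifs <;> simp
  | single d x =>
    by_cases hd : HT d
    · rw [Ap_HT hd, Finsupp.single_apply]
      by_cases hdc : d = c
      · subst hdc
        rw [if_pos hd]
        rfl
      · rw [if_neg hdc, ite_self]
        rfl
    · rw [Ap_not hd, Finsupp.single_apply]
      by_cases hdc : d = c
      · subst hdc
        rw [if_neg hd]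
      · rw [if_neg hdc, ite_self]

/-- the level of a cube -/
def lev {n : ℕ} (c : (Zed T).cub n) : ℤ :=
  (show {c : (RA T.V × ℤ) × Chn (WithTop T.V) n // Alw T.M c.1.2 c.2} from c).1.1.2

theorem c0_inj {n : ℕ} {a a' : RA T.V} {l l' : ℤ} {s s' : Chn T.V n} {h : ∀ i, s.1 i ∈ T.M l}
    {h' : ∀ i, s'.1 i ∈ T.M l'} (hh : c0 T a l s h = c0 T a' l' s' h') : a = a' ∧ l = l' ∧ s = s' := by
  have h1 := congrArg (fun c : (Zed T).cub n =>
    (show {c : (RA T.V × ℤ) × Chn (WithTop T.V) n // Alw T.M c.1.2 c.2} from c).1) hh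
  have h2 : ((a, l), up s) = ((a', l'), up s') := h1
  have h3 := congrArg Prod.snd h2
  have h4 := congrArg (fun x => x.1.1) h2
  have h5 := congrArg (fun x => x.1.2) h2
  exact ⟨h4, h5, up_injective h3⟩

/-- a chain of cubes with `⊤` whose boundary has no part without `⊤` is zero -/
theorem vert_inj {n : ℕ} (z : (Zed T).cub (n + 1) →₀ k) (hz : Ap T k (n + 1) z = 0)
    (h : Ap T k n ((Zed T).bd k n z) = 0) : z = 0 := by
  by_contra hne
  have hsupp : z.support.Nonempty := Finsupp.support_nonempty_iff.2 hne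
  have hHT : ∀ d ∈ z.support, HT d := by
    intro d hd
    by_contra h1
    have h2 := Ap_apply z d
    rw [hz, if_neg h1] at h2
    exact Finsupp.mem_support_iff.1 hd h2.symm
  obtain ⟨c, hc, hmax⟩ := z.support.exists_max_image lev hsupp
  obtain ⟨a, l, s, hs, rfl⟩ := exists_c1 (hHT c hc)
  have h1 : z = ∑ d ∈ z.support, z d • Finsupp.single d (1 : k) := by
    conv_lhs => rw [← Finsupp.sum_single z]
    unfold Finsupp.sum
    refine Finset.sum_congr rfl fun d _ => ?_
    rw [Finsupp.smul_single_one]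
  have h2 : Ap T k n ((Zed T).bd k n z) (c0 T a (l + 1) s (fun i => (hs i).2)) =
      z (c1 T a l s hs) * (-1 : k) ^ n := by
    conv_lhs => rw [h1]
    rw [map_sum, map_sum, Finsupp.finsetSum_apply, Finset.sum_eq_single (c1 T a l s hs)]
    · rw [map_smul, map_smul, Ap_bd_c1, Finsupp.smul_apply, Finsupp.smul_apply, Finsupp.sub_apply,
        Finsupp.single_eq_same, Finsupp.single_apply, if_neg, sub_zero, smul_eq_mul, smul_eq_mul, mul_one]
      intro h3
      have := (c0_inj h3).2.1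
      omega
    · intro d hd hdc
      obtain ⟨a', l', s', hs', rfl⟩ := exists_c1 (hHT d hd)
      have h3 : l' ≤ l := hmax _ hd
      rw [map_smul, map_smul, Ap_bd_c1, Finsupp.smul_apply, Finsupp.smul_apply, Finsupp.sub_apply,
        Finsupp.single_apply, Finsupp.single_apply, if_neg, if_neg, sub_zero, smul_zero, smul_zero]
      · intro h4
        have := (c0_inj h4).2.1
        omega
      · intro h4
        obtain ⟨h5, h6, h7⟩ := c0_inj h4
        have h8 : l' = l := by omega
        subst h5 h7 h8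
        exact hdc rfl
    · intro h3
      exact absurd hc h3
  rw [h] at h2
  have h3 : z (c1 T a l s hs) * (-1 : k) ^ n * (-1 : k) ^ n = 0 := by
    rw [← h2]
    exact zero_mul _
  rw [mul_assoc, ← mul_pow, neg_one_mul, neg_neg, one_pow, mul_one] at h3
  exact Finsupp.mem_support_iff.1 hc h3

/-- **acyclicity** -/
theorem zed_acyclic (T : Tower P r e) (k : Type) [CommRing k] :
    (∀ z : (Zed T).cub 0 →₀ k, (z.sum fun _ a => a) = 0 → z ∈ LinearMap.range ((Zed T).bd k 0)) ∧
      ∀ (n : ℕ) (z : (Zed T).cub (n + 1) →₀ k), (Zed T).bd k n z = 0 → z ∈ LinearMap.range ((Zed T).bd k (n + 1)) := by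
  obtain ⟨rk, hrk⟩ := exists_rk (V := T.V) (m := 4) T.dim
  have hR := isR_of_strictMono hrk
  constructor
  · intro z hz
    have h1 : eA k (adjP T.V) (prZ T k 0 z) = z.sum fun _ a => a := by
      clear hz
      induction z using Finsupp.induction_linear with
      | zero => rw [map_zero, map_zero, Finsupp.sum_zero_index]
      | add f g hf hg =>
        rw [map_add, map_add, hf, hg, Finsupp.sum_add_index' (fun _ => rfl) (fun _ _ _ => rfl)]
      | single c x =>
        obtain ⟨a, l, s, hs, rfl⟩ := exists_c0 (not_HT_zero c)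
        rw [prZ_c0, map_smul, eA_cell (isC_fs a s), Finsupp.sum_single_index rfl, smul_eq_mul, mul_one]
    rw [hz] at h1
    obtain ⟨y, hy⟩ := exact_zero (R := k) isG_adjP (rk := rk) h1
    obtain ⟨S, hS, -⟩ := exists_sec (T := T) (k := k) hrk 1
    obtain ⟨S', -, hS'⟩ := exists_sec (T := T) (k := k) hrk 0
    have h2 : prZ T k 0 (z + (Zed T).bd k 0 (S y)) = 0 := by
      rw [map_add, prZ_bd hrk, hS, hy, add_neg_cancel]
    obtain ⟨w, hw⟩ := hS' (z + (Zed T).bd k 0 (S y))
    rw [h2, map_zero, ← map_sub] at hw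
    have h3 : z + (Zed T).bd k 0 (S y) - (Zed T).bd k 0 w = 0 := by
      ext c
      have h4 := Ap_apply (z + (Zed T).bd k 0 (S y) - (Zed T).bd k 0 w) c
      rw [hw, if_neg (not_HT_zero c)] at h4
      exact h4.symm
    refine ⟨w - S y, ?_⟩
    rw [map_sub, sub_eq_iff_eq_add]
    rw [sub_eq_zero] at h3
    exact h3.symm
  · intro n z hz
    have hbb : ∀ y : (Zed T).cub (n + 2) →₀ k, (Zed T).bd k n ((Zed T).bd k (n + 1) y) = 0 := bd_bd n
    have h1 : dA k (adjP T.V) rk n (prZ T k (n + 1) z) = 0 := by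
      have := prZ_bd hrk z
      rw [hz, map_zero] at this
      exact (neg_eq_zero.1 this.symm)
    obtain ⟨y, hy⟩ := exact_succ (R := k) isG_adjP hR h1
    obtain ⟨S, hS, -⟩ := exists_sec (T := T) (k := k) hrk (n + 2)
    obtain ⟨S', -, hS'⟩ := exists_sec (T := T) (k := k) hrk (n + 1)
    have h2 : prZ T k (n + 1) (z + (Zed T).bd k (n + 1) (S y)) = 0 := by
      rw [map_add, prZ_bd hrk, hS, hy, add_neg_cancel]
    obtain ⟨w, hw⟩ := hS' (z + (Zed T).bd k (n + 1) (S y))
    rw [h2, map_zero, ← map_sub] at hw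
    have h3 : z + (Zed T).bd k (n + 1) (S y) - (Zed T).bd k (n + 1) w = 0 := by
      refine vert_inj _ hw ?_
      rw [map_sub, map_add, hz, hbb, hbb, add_zero, sub_zero, map_zero]
    refine ⟨w - S y, ?_⟩
    rw [map_sub, sub_eq_iff_eq_add]
    rw [sub_eq_zero] at h3
    exact h3.symm

end

end Pool.Agent.H3.RA
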